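import Pool.Agent.Lib.TG.Basic
import Pool.Agent.Lib.TG_h68.NormModelB

/-!
# TANK G, A5: the normalisation of a finite model is a model (helper68)
-/

set_option autoImplicit false

namespace Pool.Agent.TG

open Pool.Agent.LU2 (locV IsPar Mono le_locV locV_mono locV_le locV_inv locV_mem locV_locV)

universe u

variable {k K : Type u} [Field k] [Field K] [Algebra k K] {V : ValuationSubring K}
  {P Q : Submodule k K} {f g : K}

/-- `K` is algebraic over the charts of a finite model. -/
theorem Fin'.isAlgebraic (h : Fin' P) (hf0 : f ≠ 0) (x : K) :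
    IsAlgebraic (ch P f) x := by
  obtain ⟨E, hE⟩ : ∃ E : IntermediateField k K, E = IntermediateField.adjoin k (ch P f : Set K) :=
    ⟨_, rfl⟩
  have hle : ch P f ≤ E.toSubalgebra := fun a ha => by
    rw [hE]; exact IntermediateField.subset_adjoin _ _ ha
  have hratio : IntermediateField.adjoin k {x : K | ∃ f ∈ P, ∃ g ∈ P, x = g / f} ≤ E := by
    rw [IntermediateField.adjoin_le_iff]
    rintro _ ⟨a, ha, b, hb, rfl⟩
    have h1 : b / a = b / f / (a / f) := by rw [div_div_div_cancel_right₀ hf0]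
    rw [h1]
    exact div_mem (hle (div_mem_ch hb)) (hle (div_mem_ch ha))
  have h0 : Algebra.IsAlgebraic
      (IntermediateField.adjoin k {x : K | ∃ f ∈ P, ∃ g ∈ P, x = g / f}) K := h
  have h1 : IsAlgebraic E x := by
    let _ := (IntermediateField.inclusion hratio).toRingHom.toAlgebra
    have htow : IsScalarTower (IntermediateField.adjoin k {x : K | ∃ f ∈ P, ∃ g ∈ P, x = g / f})
        E K := IsScalarTower.of_algebraMap_eq fun _ => rfl
    exact IsAlgebraic.tower_top E (h0.isAlgebraic x)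
  let _ : Algebra (ch P f) E := (Subalgebra.inclusion hle).toRingHom.toAlgebra
  have htow : IsScalarTower (ch P f) E K := IsScalarTower.of_algebraMap_eq fun _ => rfl
  have halg : Algebra.IsAlgebraic (ch P f) E := by
    refine ⟨fun y => ?_⟩
    have hy : (y : K) ∈ IntermediateField.adjoin k (ch P f : Set K) := by rw [← hE]; exact y.2
    obtain ⟨a, ha, b, hb, hab⟩ := IntermediateField.mem_adjoin_iff_div.1 hy
    rw [Algebra.adjoin_eq] at ha hb
    have h2 : IsAlgebraic (ch P f) (y : K) := by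
      rw [hab, div_eq_mul_inv]
      exact (isAlgebraic_algebraMap (A := K) (⟨a, ha⟩ : ch P f)).mul
        (isAlgebraic_algebraMap (A := K) (⟨b, hb⟩ : ch P f)).inv
    exact (isAlgebraic_algebraMap_iff (algebraMap E K).injective).1 h2
  exact h1.restrictScalars (ch P f)

theorem IsModel.exists_span (hP : IsModel P) : ∃ S : Finset K,
    Submodule.span k (S : Set K) = P ∧ (∀ f ∈ S, f ≠ 0) ∧ ∃ f ∈ S, f ≠ 0 := by
  classical
  obtain ⟨S, hS⟩ := hP.fg
  refine ⟨S.filter fun x => x ≠ 0, ?_, fun f hf => (Finset.mem_filter.1 hf).2, ?_⟩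
  · rw [← hS]
    refine le_antisymm (Submodule.span_mono fun x hx => ?_) (Submodule.span_le.2 fun x hx => ?_)
    · exact (Finset.mem_filter.1 hx).1
    · by_cases h0 : x = 0
      · rw [h0]; exact Submodule.zero_mem _
      · exact Submodule.subset_span (Finset.mem_coe.2 (Finset.mem_filter.2 ⟨hx, h0⟩))
  · by_contra h
    push Not at h
    apply hP.ne
    rw [← hS, Submodule.span_eq_bot]
    intro x hx
    by_contra h0
    exact h0 (h x (Finset.mem_filter.2 ⟨hx, h0⟩))

/-- **A5.** The normalisation of a finite model is a model: a subspace `P'`, which contains `P^M`,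
with `RV V P' = NV V P` for all `V`. -/
theorem exists_normal_model [PerfectField k] (hK : (⊤ : IntermediateField k K).FG)
    (hP : IsModel P) (hfin : Fin' P) : ∃ (P' : Submodule k K) (M : ℕ), IsModel P' ∧ 0 < M ∧
      P ^ M ≤ P' ∧ (∀ q ∈ P', ∀ f ∈ P, f ≠ 0 → q / f ^ M ∈ chN P f) ∧
      ∀ V : ValuationSubring K, Ov k V →
        (∀ f, IsMin V P f → IsMin V P' (f ^ M)) ∧ RV V P' = NV V P ∧ NV V P' = NV V P := by
  obtain ⟨S, hS, hS0, hS1⟩ := hP.exists_span
  have hSP : ∀ f ∈ S, f ∈ P := fun f hf => by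
    rw [← hS]; exact Submodule.subset_span (Finset.mem_coe.2 hf)
  obtain ⟨M, G, hM, hG, hch⟩ := TGh68.exists_norm hK P S hS hS0
    (fun f hf x => hfin.isAlgebraic (hS0 f hf) x)
  have hint : ∀ q ∈ P ^ M ⊔ Submodule.span k (G : Set K), ∀ f ∈ P, f ≠ 0 →
      q / f ^ M ∈ chN P f := by
    intro q hq f hf hf0
    obtain ⟨a, ha, b, hb, rfl⟩ := Submodule.mem_sup.1 hq
    rw [add_div]
    refine (chN P f).add_mem ?_ ?_
    · exact le_ncl _ (TGh68.pow_div_mem_ch0 P f M ha)
    · exact TGh68.span_div_mem (chN P f).toSubmodule (fun g hg => hG g hg f hf hf0) hb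
  have hmin : ∀ V : ValuationSubring K, Ov k V → ∀ f, IsMin V P f →
      IsMin V (P ^ M ⊔ Submodule.span k (G : Set K)) (f ^ M) := by
    intro V hV f hf
    refine ⟨Submodule.mem_sup_left (Submodule.pow_mem_pow P hf.mem M), pow_ne_zero _ hf.ne,
      fun q hq => ?_⟩
    exact ncl_mem (ch_le hV hf) _ (hint q hq f hf.mem hf.ne)
  refine ⟨P ^ M ⊔ Submodule.span k (G : Set K), M, ⟨?_, ?_⟩, hM, le_sup_left, hint,
    fun V hV => ⟨hmin V hV, ?_⟩⟩
  · exact (hP.pow M).fg.sup ⟨G, rfl⟩
  · intro h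
    apply (hP.pow M).ne
    rw [eq_bot_iff, ← h]
    exact le_sup_left
  · obtain ⟨f, hf, hfm⟩ := exists_isMin_mem hV S hS1
    rw [hS] at hfm
    have h1 : RV V (P ^ M ⊔ Submodule.span k (G : Set K)) = NV V P := by
      rw [RV_eq (hmin V hV f hfm), NV_eq hfm]
      congr 1
      ext x
      exact (hch f hf x).symm
    refine ⟨h1, ?_⟩
    rw [NV, h1, NV, locV_ncl_locV, ncl_ncl]

end Pool.Agent.TG
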