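import Pool.Agent.Lib.TG.Defs

/-!
# TANK G: minimal elements, charts, local rings
-/

set_option autoImplicit false

open Polynomial

namespace Pool.Agent.TG

open Pool.Agent.LU2 (locV IsPar Mono le_locV locV_mono locV_le locV_inv locV_mem locV_locV)

universe u

variable {k K : Type u} [Field k] [Field K] [Algebra k K] {V : ValuationSubring K}
  {P Q : Submodule k K} {f g : K}

/-! ### Minimal elements -/

theorem Ov.smul_mem (hV : Ov k V) (c : k) {x : K} (hx : x ∈ V) : c • x ∈ V := by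
  rw [Algebra.smul_def]
  exact V.mul_mem _ _ (hV c) hx

/-- The `k`-subspace `V` of `K`. -/
def vsub (hV : Ov k V) : Submodule k K where
  carrier := {x | x ∈ V}
  add_mem' := fun ha hb => V.add_mem _ _ ha hb
  zero_mem' := V.zero_mem
  smul_mem' := fun c _ hx => hV.smul_mem c hx

/-- The `k`-subalgebra `V` of `K`. -/
def valg (hV : Ov k V) : Subalgebra k K where
  carrier := {x | x ∈ V}
  add_mem' := fun ha hb => V.add_mem _ _ ha hb
  mul_mem' := fun ha hb => V.mul_mem _ _ ha hb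
  algebraMap_mem' := hV

theorem mem_valg {hV : Ov k V} {x : K} : x ∈ valg hV ↔ x ∈ V := Iff.rfl

theorem isMin_of_span (hV : Ov k V) {S : Set K} (hf : f ∈ Submodule.span k S) (h0 : f ≠ 0)
    (h : ∀ g ∈ S, g / f ∈ V) : IsMin V (Submodule.span k S) f := by
  refine ⟨hf, h0, fun g hg => ?_⟩
  induction hg using Submodule.span_induction with
  | mem x hx => exact h x hx
  | zero => rw [zero_div]; exact V.zero_mem
  | add x y _ _ hx hy => rw [add_div]; exact V.add_mem _ _ hx hy
  | smul c x _ hx => rw [smul_div_assoc]; exact hV.smul_mem c hx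

theorem exists_isMin (hV : Ov k V) (hP : IsModel P) : ∃ f, IsMin V P f := by
  classical
  obtain ⟨S, rfl⟩ := hP.fg
  have hS : ∃ x ∈ S, x ≠ 0 := by
    by_contra h
    push Not at h
    exact hP.ne (Submodule.span_eq_bot.2 h)
  obtain ⟨x, hx, hx0⟩ := hS
  obtain ⟨f, hf, hmax⟩ := S.exists_max_image (fun y => V.valuation y) ⟨x, hx⟩
  have hf0 : f ≠ 0 := by
    rintro rfl
    have := hmax x hx
    simp only [map_zero, nonpos_iff_eq_zero, map_eq_zero] at this
    exact hx0 this
  refine ⟨f, isMin_of_span hV (Submodule.subset_span hf) hf0 fun g hg => ?_⟩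
  rw [← V.valuation_le_one_iff, map_div₀]
  exact div_le_one_of_le₀ (hmax g hg) zero_le

/-- A minimal element among a finite set of generators. -/
theorem exists_isMin_mem (hV : Ov k V) (S : Finset K) (hS : ∃ x ∈ S, x ≠ 0) :
    ∃ f ∈ S, IsMin V (Submodule.span k (S : Set K)) f := by
  classical
  obtain ⟨x, hx, hx0⟩ := hS
  obtain ⟨f, hf, hmax⟩ := S.exists_max_image (fun y => V.valuation y) ⟨x, hx⟩
  have hf0 : f ≠ 0 := by
    rintro rfl
    have := hmax x hx
    simp only [map_zero, nonpos_iff_eq_zero, map_eq_zero] at this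
    exact hx0 this
  refine ⟨f, hf, isMin_of_span hV (Submodule.subset_span hf) hf0 fun g hg => ?_⟩
  rw [← V.valuation_le_one_iff, map_div₀]
  exact div_le_one_of_le₀ (hmax g hg) zero_le

theorem val_div_eq_one (hf : IsMin V P f) (hg : IsMin V P g) : V.valuation (g / f) = 1 := by
  have h1 : V.valuation (g / f) ≤ 1 := (V.valuation_le_one_iff _).2 (hf.div g hg.mem)
  have h2 : V.valuation (f / g) ≤ 1 := (V.valuation_le_one_iff _).2 (hg.div f hf.mem)
  refine le_antisymm h1 ?_
  have hf0 : V.valuation f ≠ 0 := (Valuation.ne_zero_iff _).2 hf.ne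
  have hg0 : V.valuation g ≠ 0 := (Valuation.ne_zero_iff _).2 hg.ne
  rw [map_div₀] at h2 ⊢
  have h3 := (div_le_one₀ (zero_lt_iff.2 hg0)).1 h2
  exact (one_le_div₀ (zero_lt_iff.2 hf0)).2 h3

theorem IsMin.of_val (hf : IsMin V P f) (hg : g ∈ P) (h1 : V.valuation (g / f) = 1) :
    IsMin V P g := by
  have hg0 : g ≠ 0 := by
    rintro rfl
    rw [zero_div, map_zero] at h1
    exact zero_ne_one h1
  refine ⟨hg, hg0, fun x hx => ?_⟩
  have h2 : x / g = x / f / (g / f) := by
    rw [div_div_div_cancel_right₀ hf.ne]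
  rw [h2, ← V.valuation_le_one_iff, map_div₀, h1, div_one, V.valuation_le_one_iff]
  exact hf.div x hx

/-- Minimality for two valuation rings `V ≤ V₁`. -/
theorem IsMin.of_le {V₁ : ValuationSubring K} (hf : IsMin V P f) (hle : V ≤ V₁) : IsMin V₁ P f :=
  ⟨hf.mem, hf.ne, fun g hg => hle (hf.div g hg)⟩

/-! ### Charts -/

theorem div_mem_ch (hg : g ∈ P) : g / f ∈ ch P f := Algebra.subset_adjoin ⟨g, hg, rfl⟩

theorem ch_le_iff {A : Subalgebra k K} : ch P f ≤ A ↔ ∀ g ∈ P, g / f ∈ A := by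
  refine ⟨fun h g hg => h (div_mem_ch hg), fun h => Algebra.adjoin_le ?_⟩
  rintro _ ⟨g, hg, rfl⟩
  exact h g hg

theorem ch_le (hV : Ov k V) (hf : IsMin V P f) : ∀ a ∈ ch P f, a ∈ V := fun _ ha =>
  (ch_le_iff (A := valg hV)).2 hf.div ha

theorem isMin_iff_ch (hf : f ∈ P) (h0 : f ≠ 0) (hV : Ov k V) :
    IsMin V P f ↔ ∀ a ∈ ch P f, a ∈ V :=
  ⟨fun h => ch_le hV h, fun h => ⟨hf, h0, fun _ hg => h _ (div_mem_ch hg)⟩⟩

theorem ch_fg (hP : P.FG) : (ch P f).FG := by
  classical
  obtain ⟨S, rfl⟩ := hP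
  refine Subalgebra.fg_def.2 ⟨(fun g => g / f) '' (S : Set K), S.finite_toSet.image _, ?_⟩
  refine le_antisymm (Algebra.adjoin_mono (Set.image_mono Submodule.subset_span)) ?_
  refine ch_le_iff.2 fun g hg => ?_
  induction hg using Submodule.span_induction with
  | mem x hx => exact Algebra.subset_adjoin ⟨x, hx, rfl⟩
  | zero => rw [zero_div]; exact Subalgebra.zero_mem _
  | add x y _ _ hx hy => rw [add_div]; exact Subalgebra.add_mem _ hx hy
  | smul c x _ hx => rw [smul_div_assoc]; exact Subalgebra.smul_mem _ hx c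

theorem isIntegral_valuationSubring {R : Subalgebra k K} (hR : ∀ a ∈ R, a ∈ V) {x : K}
    (hx : IsIntegral R x) : x ∈ V := by
  obtain ⟨p, hp, hpx⟩ := hx
  have hV : IsIntegral V x := by
    refine ⟨p.map (⟨⟨⟨fun a : R => (⟨a, hR a a.2⟩ : V), rfl⟩, fun _ _ => rfl⟩, rfl,
      fun _ _ => rfl⟩ : R →+* V), hp.map _, ?_⟩
    rw [Polynomial.eval₂_map]
    exact hpx
  obtain ⟨y, hy⟩ := (IsIntegrallyClosed.isIntegral_iff (R := V) (K := K)).1 hV
  rw [← hy]
  exact y.2

theorem le_ncl (R : Subalgebra k K) : R ≤ ncl R := fun a ha =>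
  isIntegral_algebraMap (R := R) (A := K) (x := ⟨a, ha⟩)

theorem ncl_mono {R S : Subalgebra k K} (h : R ≤ S) : ncl R ≤ ncl S := by
  rintro a ⟨p, hp, hpx⟩
  refine ⟨p.map (Subalgebra.inclusion h).toRingHom, hp.map _, ?_⟩
  rw [Polynomial.eval₂_map]
  exact hpx

theorem ncl_mem {R : Subalgebra k K} (hR : ∀ a ∈ R, a ∈ V) : ∀ a ∈ ncl R, a ∈ V := fun _ ha =>
  isIntegral_valuationSubring hR ha

/-- A root of a monic polynomial with integral coefficients is integral. -/
theorem mem_ncl_of_root {A : Subalgebra k K} (p : Polynomial K) (hp : p.Monic)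
    (hc : ∀ i, p.coeff i ∈ ncl A) {a : K} (ha : p.eval a = 0) : a ∈ ncl A := by
  have h1 : p ∈ Polynomial.lifts (algebraMap (integralClosure A K) K) := by
    rw [Polynomial.lifts_iff_coeff_lifts]
    intro i
    exact ⟨⟨p.coeff i, hc i⟩, rfl⟩
  obtain ⟨q, hq, -, hqm⟩ := Polynomial.lifts_and_natDegree_eq_and_monic h1 hp
  refine isIntegral_trans (A := integralClosure A K) a ⟨q, hqm, ?_⟩
  rw [← Polynomial.eval_map, hq, ha]

theorem exists_poly_of_mem_ncl {A : Subalgebra k K} {a : K} (ha : a ∈ ncl A) :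
    ∃ p : Polynomial K, p.Monic ∧ (∀ i, p.coeff i ∈ A) ∧ p.eval a = 0 := by
  obtain ⟨q, hq, hqa⟩ := ha
  refine ⟨q.map (algebraMap A K), hq.map _, fun i => ?_, by rw [Polynomial.eval_map]; exact hqa⟩
  rw [Polynomial.coeff_map]
  exact (q.coeff i).2

theorem ncl_ncl (R : Subalgebra k K) : ncl (ncl R) = ncl R := by
  refine le_antisymm (fun a ha => ?_) (le_ncl _)
  obtain ⟨p, hp, hc, h0⟩ := exists_poly_of_mem_ncl ha
  exact mem_ncl_of_root p hp hc h0

/-- Common denominators of value `1`. -/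
theorem exists_den (S : Subalgebra k K) (p : Polynomial K) (hc : ∀ i, p.coeff i ∈ locV V S) :
    ∃ s ∈ S, V.valuation s = 1 ∧ ∀ i, s * p.coeff i ∈ S := by
  classical
  have key : ∀ t : Finset ℕ, ∃ s ∈ S, V.valuation s = 1 ∧ ∀ i ∈ t, s * p.coeff i ∈ S := by
    intro t
    induction t using Finset.induction_on with
    | empty => exact ⟨1, S.one_mem, map_one _, fun i hi => by simp at hi⟩
    | insert j t hj ih =>
      obtain ⟨s, hs, hvs, hst⟩ := ih
      obtain ⟨a, ha, b, hb, hvb, hab⟩ := hc j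
      have hb0 : b ≠ 0 := by rintro rfl; simp at hvb
      refine ⟨s * b, S.mul_mem hs hb, by rw [map_mul, hvs, hvb, one_mul], ?_⟩
      intro i hi
      rcases Finset.mem_insert.1 hi with rfl | hi
      · rw [hab, show s * b * (a / b) = s * a by field_simp]
        exact S.mul_mem hs ha
      · rw [show s * b * p.coeff i = b * (s * p.coeff i) by ring]
        exact S.mul_mem hb (hst i hi)
  obtain ⟨s, hs, hvs, hst⟩ := key (Finset.range (p.natDegree + 1))
  refine ⟨s, hs, hvs, fun i => ?_⟩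
  by_cases hi : i ∈ Finset.range (p.natDegree + 1)
  · exact hst i hi
  · rw [Finset.mem_range, not_lt] at hi
    rw [Polynomial.coeff_eq_zero_of_natDegree_lt (by omega), mul_zero]
    exact S.zero_mem

/-- Normalisation commutes with localisation at the centre. -/
theorem locV_ncl_locV (R : Subalgebra k K) : locV V (ncl (locV V R)) = locV V (ncl R) := by
  refine le_antisymm (locV_le (fun a ha => ?_) fun f hf h1 => locV_inv hf h1)
    (locV_mono (ncl_mono (le_locV R)))
  obtain ⟨p, hp, hc, h0⟩ := exists_poly_of_mem_ncl ha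
  obtain ⟨s, hs, hvs, hsp⟩ := exists_den R p hc
  have hs0 : s ≠ 0 := by rintro rfl; simp at hvs
  refine ⟨s * a, ?_, s, le_ncl R hs, hvs, by field_simp⟩
  refine mem_ncl_of_root (p.scaleRoots s) ((Polynomial.monic_scaleRoots_iff s).2 hp)
    (fun i => le_ncl R ?_) ?_
  · rw [Polynomial.coeff_scaleRoots]
    rcases lt_trichotomy i p.natDegree with h | h | h
    · have h3 : p.coeff i * s ^ (p.natDegree - i) =
          (s * p.coeff i) * s ^ (p.natDegree - i - 1) := by
        obtain ⟨j, hj⟩ := Nat.exists_eq_add_of_lt h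
        rw [show p.natDegree - i = j + 1 by omega, show j + 1 - 1 = j by omega]
        ring
      rw [h3]
      exact R.mul_mem (hsp i) (R.pow_mem hs _)
    · rw [h, hp.coeff_natDegree, Nat.sub_self, pow_zero, mul_one]
      exact R.one_mem
    · rw [Polynomial.coeff_eq_zero_of_natDegree_lt h, zero_mul]
      exact R.zero_mem
  · have h4 := Polynomial.scaleRoots_eval₂_mul (p := p) (f := RingHom.id K) (r := a) (s := s)
    simp only [RingHom.id_apply] at h4
    rw [← Polynomial.eval₂_id, h4, Polynomial.eval₂_id, h0, mul_zero]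

/-! ### Local rings -/

theorem rat_le_locV (hf : IsMin V P f) : rat V P ≤ locV V (ch P f) := by
  refine Algebra.adjoin_le ?_
  rintro x ⟨f', g, hf', hg, rfl⟩
  refine ⟨g / f, div_mem_ch hg, f' / f, div_mem_ch hf'.mem, val_div_eq_one hf hf', ?_⟩
  rw [div_div_div_cancel_right₀ hf.ne]

theorem ch_le_rat (hf : IsMin V P f) : ch P f ≤ rat V P :=
  ch_le_iff.2 fun g hg => Algebra.subset_adjoin ⟨f, g, hf, hg, rfl⟩

theorem RV_eq (hf : IsMin V P f) : RV V P = locV V (ch P f) :=
  le_antisymm (locV_le (rat_le_locV hf) fun _ h h1 => locV_inv h h1) (locV_mono (ch_le_rat hf))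

theorem NV_eq (hf : IsMin V P f) : NV V P = locV V (chN P f) := by
  rw [NV, RV_eq hf, locV_ncl_locV]
  rfl

theorem RV_inv (hf : f ∈ RV V P) (h1 : V.valuation f = 1) : f⁻¹ ∈ RV V P := locV_inv hf h1

theorem NV_inv (hf : f ∈ NV V P) (h1 : V.valuation f = 1) : f⁻¹ ∈ NV V P := locV_inv hf h1

theorem RV_le (hV : Ov k V) (hP : IsModel P) : ∀ a ∈ RV V P, a ∈ V := by
  obtain ⟨f, hf⟩ := exists_isMin hV hP
  rw [RV_eq hf]
  exact locV_mem (ch_le hV hf)

theorem NV_le (hV : Ov k V) (hP : IsModel P) : ∀ a ∈ NV V P, a ∈ V :=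
  locV_mem (ncl_mem (RV_le hV hP))

theorem RV_le_NV : RV V P ≤ NV V P := (le_ncl _).trans (le_locV _)

theorem locV_RV : locV V (RV V P) = RV V P := locV_locV _

theorem div_mem_RV (hf : IsMin V P f) (hg : g ∈ P) : g / f ∈ RV V P := by
  rw [RV_eq hf]
  exact le_locV _ (div_mem_ch hg)

theorem RV_le_iff {A : Subalgebra k K} (hA : ∀ a ∈ A, V.valuation a = 1 → a⁻¹ ∈ A)
    (hf : IsMin V P f) : RV V P ≤ A ↔ ∀ g ∈ P, g / f ∈ A := by
  rw [RV_eq hf]
  exact ⟨fun h g hg => h (le_locV _ (div_mem_ch hg)), fun h => locV_le (ch_le_iff.2 h) hA⟩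

/-! ### Joins -/

theorem IsMin.mul (hf : IsMin V P f) (hg : IsMin V Q g) :
    IsMin V (P * Q) (f * g) := by
  refine ⟨Submodule.mul_mem_mul hf.mem hg.mem, mul_ne_zero hf.ne hg.ne, fun x hx => ?_⟩
  induction hx using Submodule.mul_induction_on' with
  | mem_mul_mem a ha b hb =>
    rw [mul_div_mul_comm]
    exact V.mul_mem _ _ (hf.div a ha) (hg.div b hb)
  | add a _ b _ ha hb => rw [add_div]; exact V.add_mem _ _ ha hb

theorem IsModel.mul (hP : IsModel P) (hQ : IsModel Q) : IsModel (P * Q) := by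
  refine ⟨hP.fg.mul hQ.fg, fun h => ?_⟩
  obtain ⟨a, ha, ha0⟩ := Submodule.exists_mem_ne_zero_of_ne_bot hP.ne
  obtain ⟨b, hb, hb0⟩ := Submodule.exists_mem_ne_zero_of_ne_bot hQ.ne
  have h1 : a * b ∈ P * Q := Submodule.mul_mem_mul ha hb
  rw [h, Submodule.mem_bot] at h1
  exact mul_ne_zero ha0 hb0 h1

theorem ch_mul (hf : f ∈ P) (hf0 : f ≠ 0) (hg : g ∈ Q) (hg0 : g ≠ 0) :
    ch (P * Q) (f * g) = ch P f ⊔ ch Q g := by
  refine le_antisymm (ch_le_iff.2 fun x hx => ?_) (sup_le ?_ ?_)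
  · induction hx using Submodule.mul_induction_on' with
    | mem_mul_mem a ha b hb =>
      rw [mul_div_mul_comm]
      exact Subalgebra.mul_mem _ ((le_sup_left : ch P f ≤ _) (div_mem_ch ha))
        ((le_sup_right : ch Q g ≤ _) (div_mem_ch hb))
    | add a _ b _ ha hb => rw [add_div]; exact Subalgebra.add_mem _ ha hb
  · refine ch_le_iff.2 fun a ha => ?_
    rw [← mul_div_mul_right a f hg0]
    exact div_mem_ch (Submodule.mul_mem_mul ha hg)
  · refine ch_le_iff.2 fun a ha => ?_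
    rw [← mul_div_mul_left a g hf0]
    exact div_mem_ch (Submodule.mul_mem_mul hf ha)

theorem locV_sup (S T : Subalgebra k K) : locV V (locV V S ⊔ T) = locV V (S ⊔ T) :=
  le_antisymm (locV_le (sup_le (locV_mono le_sup_left) (le_sup_right.trans (le_locV _)))
    fun _ h h1 => locV_inv h h1) (locV_mono (sup_le_sup_right (le_locV S) T))

theorem locV_sup' (S T : Subalgebra k K) :
    locV V (locV V S ⊔ locV V T) = locV V (S ⊔ T) := by
  rw [locV_sup, sup_comm, locV_sup, sup_comm]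

theorem RV_mul (hV : Ov k V) (hP : IsModel P) (hQ : IsModel Q) :
    RV V (P * Q) = locV V (RV V P ⊔ RV V Q) := by
  obtain ⟨f, hf⟩ := exists_isMin hV hP
  obtain ⟨g, hg⟩ := exists_isMin hV hQ
  rw [RV_eq (hf.mul hg), RV_eq hf, RV_eq hg, ch_mul hf.mem hf.ne hg.mem hg.ne, locV_sup']

theorem RV_le_mul_left (hV : Ov k V) (hP : IsModel P) (hQ : IsModel Q) :
    RV V P ≤ RV V (P * Q) := by
  rw [RV_mul hV hP hQ]
  exact le_sup_left.trans (le_locV _)

theorem RV_le_mul_right (hV : Ov k V) (hP : IsModel P) (hQ : IsModel Q) :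
    RV V Q ≤ RV V (P * Q) := by
  rw [RV_mul hV hP hQ]
  exact le_sup_right.trans (le_locV _)

theorem Dom.mul_left (hP : IsModel P) (hQ : IsModel Q) : Dom P (P * Q) := fun _ hV =>
  RV_le_mul_left hV hP hQ

theorem Dom.mul_right (hP : IsModel P) (hQ : IsModel Q) : Dom Q (P * Q) := fun _ hV =>
  RV_le_mul_right hV hP hQ

theorem Dom.refl (P : Submodule k K) : Dom P P := fun _ _ => le_rfl

theorem Dom.trans {P Q S : Submodule k K} (h : Dom P Q) (h' : Dom Q S) : Dom P S := fun V hV =>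
  (h V hV).trans (h' V hV)

/-- The join is the smallest model which dominates both. -/
theorem mul_dom {S : Submodule k K} (hP : IsModel P) (hQ : IsModel Q) (h : Dom P S)
    (h' : Dom Q S) : Dom (P * Q) S := fun V hV => by
  rw [RV_mul hV hP hQ]
  exact locV_le (sup_le (h V hV) (h' V hV)) fun _ ha h1 => RV_inv ha h1

/-! ### Powers, multiples -/

theorem IsMin.pow (hV : Ov k V) (hf : IsMin V P f) (N : ℕ) : IsMin V (P ^ N) (f ^ N) := by
  induction N with
  | zero =>
    rw [pow_zero, pow_zero]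
    refine ⟨Submodule.one_le.1 le_rfl, one_ne_zero, fun x hx => ?_⟩
    obtain ⟨c, rfl⟩ := Submodule.mem_one.1 hx
    rw [div_one]
    exact hV c
  | succ N ih => rw [pow_succ, pow_succ]; exact ih.mul hf

theorem IsModel.one : IsModel (1 : Submodule k K) := by
  refine ⟨⟨{1}, by simp [Submodule.one_eq_span]⟩, fun h => ?_⟩
  have h1 : (1 : K) ∈ (1 : Submodule k K) := Submodule.one_le.1 le_rfl
  rw [h, Submodule.mem_bot] at h1
  exact one_ne_zero h1

theorem IsModel.pow (hP : IsModel P) (N : ℕ) : IsModel (P ^ N) := by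
  induction N with
  | zero => rw [pow_zero]; exact IsModel.one
  | succ N ih => rw [pow_succ]; exact ih.mul hP

theorem ch_pow (hf : f ∈ P) (hf0 : f ≠ 0) (N : ℕ) : ch (P ^ (N + 1)) (f ^ (N + 1)) = ch P f := by
  induction N with
  | zero => rw [zero_add, pow_one, pow_one]
  | succ N ih =>
    rw [pow_succ P, pow_succ f, ch_mul (Submodule.pow_mem_pow P hf _) (pow_ne_zero _ hf0) hf
      hf0, ih, sup_idem]

theorem RV_pow (hV : Ov k V) (hP : IsModel P) (N : ℕ) : RV V (P ^ (N + 1)) = RV V P := by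
  obtain ⟨f, hf⟩ := exists_isMin hV hP
  rw [RV_eq hf, RV_eq (hf.pow hV (N + 1)), ch_pow hf.mem hf.ne]

theorem NV_congr (h : RV V P = RV V Q) : NV V P = NV V Q := by rw [NV, NV, h]

theorem NV_mono (h : RV V P ≤ RV V Q) : NV V P ≤ NV V Q := locV_mono (ncl_mono h)

/-! ### Same centre -/

/-- If the two valuation rings have the same units on the chart, the local rings are equal. -/
theorem locV_congr {V V' : ValuationSubring K} {R : Subalgebra k K}
    (h : ∀ a ∈ R, V.valuation a = 1 ↔ V'.valuation a = 1) : locV V R = locV V' R := by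
  ext x
  constructor
  · rintro ⟨a, ha, b, hb, h1, rfl⟩
    exact ⟨a, ha, b, hb, (h b hb).1 h1, rfl⟩
  · rintro ⟨a, ha, b, hb, h1, rfl⟩
    exact ⟨a, ha, b, hb, (h b hb).2 h1, rfl⟩

end Pool.Agent.TG
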