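import Pool.Agent.Lib.TG.Centre

/-!
# TANK G, A6: blow ups

`E` is a nonzero finite dimensional subspace of `K`; `P * E` is the blow up of the model `P` in
the fractional ideal generated by `E`.
-/

set_option autoImplicit false

namespace Pool.Agent.TG

open Pool.Agent.LU2 (locV IsPar Mono le_locV locV_mono locV_le locV_inv locV_mem)

universe u

variable {k K : Type u} [Field k] [Field K] [Algebra k K] {V : ValuationSubring K}
  {P E E' : Submodule k K} {e f g : K}

theorem locV_ncl_NV : locV V (ncl (NV V P)) = NV V P := by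
  rw [NV, locV_ncl_locV, ncl_ncl]

/-- The local ring of the blow up is `(RV V P)[g / e : g ∈ E]`, localised. -/
theorem RV_mul_eq (hV : Ov k V) (hP : IsModel P) (hE : IsModel E) (he : IsMin V E e) :
    RV V (P * E) = locV V (RV V P ⊔ ch E e) := by
  rw [RV_mul hV hP hE, RV_eq he, sup_comm, locV_sup, sup_comm]

/-- What is inside `A` and closed under the inverses of units contains the local ring of the
blow up. -/
theorem RV_mul_le_iff (hV : Ov k V) (hP : IsModel P) (hE : IsModel E) (he : IsMin V E e)
    {A : Subalgebra k K} (hA : ∀ a ∈ A, V.valuation a = 1 → a⁻¹ ∈ A) :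
    RV V (P * E) ≤ A ↔ RV V P ≤ A ∧ ∀ g ∈ E, g / e ∈ A := by
  rw [RV_mul_eq hV hP hE he]
  constructor
  · intro h
    exact ⟨le_sup_left.trans ((le_locV _).trans h),
      ch_le_iff.1 (le_sup_right.trans ((le_locV _).trans h))⟩
  · rintro ⟨h1, h2⟩
    exact locV_le (sup_le h1 (ch_le_iff.2 h2)) hA

/-- Blowing up an ideal which is principal at the centre of `V` changes nothing. -/
theorem RV_mul_of_principal (hV : Ov k V) (hP : IsModel P) (hE : IsModel E) (he : IsMin V E e)
    (h : ∀ g ∈ E, g / e ∈ RV V P) : RV V (P * E) = RV V P :=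
  le_antisymm ((RV_mul_le_iff hV hP hE he fun _ ha h1 => RV_inv ha h1).2 ⟨le_rfl, h⟩)
    (RV_le_mul_left hV hP hE)

theorem NV_mul_of_principal (hV : Ov k V) (hP : IsModel P) (hE : IsModel E) (he : IsMin V E e)
    (h : ∀ g ∈ E, g / e ∈ NV V P) : NV V (P * E) = NV V P := by
  refine le_antisymm ?_ (NV_mono (RV_le_mul_left hV hP hE))
  have h1 : RV V (P * E) ≤ NV V P :=
    (RV_mul_le_iff hV hP hE he fun _ ha h1 => NV_inv ha h1).2 ⟨RV_le_NV, h⟩
  calc NV V (P * E) ≤ locV V (ncl (NV V P)) := locV_mono (ncl_mono h1)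
    _ = NV V P := locV_ncl_NV

/-- In the blow up the ideal is principal. -/
theorem div_mem_RV_mul (hV : Ov k V) (hP : IsModel P) (hE : IsModel E) (he : IsMin V E e)
    (hg : g ∈ E) : g / e ∈ RV V (P * E) :=
  RV_le_mul_right hV hP hE (div_mem_RV he hg)

/-- Subspaces of the local fractional ideal: the values. -/
theorem div_mem_of_span {R : Subalgebra k K} (hR : ∀ a ∈ R, a ∈ V) (he : IsMin V E e)
    (hg : g ∈ Submodule.span R (E : Set K)) : g / e ∈ V := by
  induction hg using Submodule.span_induction with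
  | mem x hx => exact he.div x hx
  | zero => rw [zero_div]; exact V.zero_mem
  | add x y _ _ hx hy => rw [add_div]; exact V.add_mem _ _ hx hy
  | smul r x _ hx =>
    rw [Algebra.smul_def, mul_div_assoc]
    exact V.mul_mem _ _ (hR _ r.2) hx

theorem div_mem_sup_of_span {R : Subalgebra k K} (hg : g ∈ Submodule.span R (E : Set K)) :
    g / e ∈ R ⊔ ch E e := by
  induction hg using Submodule.span_induction with
  | mem x hx => exact le_sup_right (a := R) (b := ch E e) (div_mem_ch hx)
  | zero => rw [zero_div]; exact Subalgebra.zero_mem _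
  | add x y _ _ hx hy => rw [add_div]; exact Subalgebra.add_mem _ hx hy
  | smul r x _ hx =>
    rw [Algebra.smul_def, mul_div_assoc]
    exact Subalgebra.mul_mem _ (le_sup_left (a := R) (b := ch E e) r.2) hx

/-- The minimal values of two subspaces which generate the same fractional ideal coincide. -/
theorem val_div_of_span {R : Subalgebra k K} (hR : ∀ a ∈ R, a ∈ V) {e' : K}
    (he : IsMin V E e) (he' : IsMin V E' e')
    (h : Submodule.span R (E : Set K) = Submodule.span R (E' : Set K)) :
    V.valuation (e' / e) = 1 := by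
  have h1 : e' / e ∈ V := div_mem_of_span hR he (h ▸ Submodule.subset_span he'.mem)
  have h2 : e / e' ∈ V := div_mem_of_span hR he' (h ▸ Submodule.subset_span he.mem)
  refine val_eq_one_of_mem_inv (div_ne_zero he'.ne he.ne) h1 ?_
  rwa [inv_div]

theorem span_le_aux {R : Subalgebra k K} (hR : ∀ a ∈ R, a ∈ V) {e' : K}
    (he : IsMin V E e) (he' : IsMin V E' e')
    (h : Submodule.span R (E : Set K) = Submodule.span R (E' : Set K)) :
    locV V (R ⊔ ch E' e') ≤ locV V (R ⊔ ch E e) := by
  refine locV_le (sup_le (le_sup_left.trans (le_locV _)) (ch_le_iff.2 fun g hg => ?_))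
    fun _ ha h1 => locV_inv ha h1
  have h1 : g / e ∈ R ⊔ ch E e := div_mem_sup_of_span (h ▸ Submodule.subset_span hg)
  have h2 : e' / e ∈ R ⊔ ch E e := div_mem_sup_of_span (h ▸ Submodule.subset_span he'.mem)
  refine ⟨g / e, h1, e' / e, h2, val_div_of_span hR he he' h, ?_⟩
  rw [div_div_div_cancel_right₀ he.ne]

/-- The blow up depends only on the fractional ideals `RV V P · E`. -/
theorem RV_mul_congr (hV : Ov k V) (hP : IsModel P) (hE : IsModel E) (hE' : IsModel E')
    (h : Submodule.span (RV V P) (E : Set K) = Submodule.span (RV V P) (E' : Set K)) :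
    RV V (P * E) = RV V (P * E') := by
  obtain ⟨e, he⟩ := exists_isMin hV hE
  obtain ⟨e', he'⟩ := exists_isMin hV hE'
  rw [RV_mul_eq hV hP hE he, RV_mul_eq hV hP hE' he']
  exact le_antisymm (span_le_aux (RV_le hV hP) he' he h.symm)
    (span_le_aux (RV_le hV hP) he he' h)

/-- The normalised blow up, as normalisation of `(NV V P)[g / e : g ∈ E]`. -/
theorem NV_mul_eq (hV : Ov k V) (hP : IsModel P) (hE : IsModel E) (he : IsMin V E e) :
    NV V (P * E) = locV V (ncl (NV V P ⊔ ch E e)) := by
  refine le_antisymm ?_ ?_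
  · rw [NV, RV_mul_eq hV hP hE he, locV_ncl_locV]
    exact locV_mono (ncl_mono (sup_le_sup_right RV_le_NV _))
  · have h1 : NV V P ⊔ ch E e ≤ NV V (P * E) :=
      sup_le (NV_mono (RV_le_mul_left hV hP hE)) (ch_le_iff.2 fun g hg =>
        RV_le_NV (div_mem_RV_mul hV hP hE he hg))
    calc locV V (ncl (NV V P ⊔ ch E e)) ≤ locV V (ncl (NV V (P * E))) :=
          locV_mono (ncl_mono h1)
      _ = NV V (P * E) := locV_ncl_NV

/-- The normalised blow up depends only on the fractional ideals `NV V P · E`. -/
theorem NV_mul_congr (hV : Ov k V) (hP : IsModel P) (hE : IsModel E) (hE' : IsModel E')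
    (h : Submodule.span (NV V P) (E : Set K) = Submodule.span (NV V P) (E' : Set K)) :
    NV V (P * E) = NV V (P * E') := by
  obtain ⟨e, he⟩ := exists_isMin hV hE
  obtain ⟨e', he'⟩ := exists_isMin hV hE'
  rw [NV_mul_eq hV hP hE he, NV_mul_eq hV hP hE' he', ← locV_ncl_locV (NV V P ⊔ ch E e),
    ← locV_ncl_locV (NV V P ⊔ ch E' e')]
  rw [le_antisymm (span_le_aux (NV_le hV hP) he' he h.symm)
    (span_le_aux (NV_le hV hP) he he' h)]

/-- `E` is dominated by `P` (as a model) iff the fractional ideals generated by `E` on `P` are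
principal. -/
theorem dom_iff_principal (hE : IsModel E) :
    Dom E P ↔ ∀ V : ValuationSubring K, Ov k V → ∃ e, IsMin V E e ∧ ∀ g ∈ E, g / e ∈ RV V P := by
  constructor
  · intro h V hV
    obtain ⟨e, he⟩ := exists_isMin hV hE
    exact ⟨e, he, fun g hg => h V hV (div_mem_RV he hg)⟩
  · intro h V hV
    obtain ⟨e, he, h1⟩ := h V hV
    exact (RV_le_iff (fun _ ha h2 => RV_inv ha h2) he).2 h1

/-- The universal property of the blow up. -/
theorem mul_dom_iff {S : Submodule k K} (hP : IsModel P) (hE : IsModel E) :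
    Dom (P * E) S ↔ Dom P S ∧ Dom E S :=
  ⟨fun h => ⟨(Dom.mul_left hP hE).trans h, (Dom.mul_right hP hE).trans h⟩,
    fun h => mul_dom hP hE h.1 h.2⟩

/-- Comparability: `a` or `b` divides the other one in the local ring of the blow up in
`⟨a, b⟩`. -/
theorem pair_comparable (hV : Ov k V) {a b : K} (ha : a ≠ 0) (hb : b ≠ 0) :
    a / b ∈ RV V (Submodule.span k {a, b}) ∨ b / a ∈ RV V (Submodule.span k {a, b}) := by
  have hm : ∀ x y : K, x ≠ 0 → y / x ∈ V → y / x ∈ RV V (Submodule.span k {x, y}) := by
    intro x y hx hxy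
    refine div_mem_RV ?_ (Submodule.subset_span (by simp))
    refine isMin_of_span hV (Submodule.subset_span (by simp)) hx fun g hg => ?_
    rcases hg with rfl | hg
    · rw [div_self hx]
      exact V.one_mem
    · rw [Set.mem_singleton_iff] at hg
      rw [hg]
      exact hxy
  rcases V.mem_or_inv_mem (a / b) with h | h
  · left
    rw [Set.pair_comm]
    exact hm b a hb h
  · right
    rw [inv_div] at h
    exact hm a b ha h

theorem pair_isModel {a b : K} (ha : a ≠ 0) : IsModel (Submodule.span k {a, b}) := by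
  refine ⟨Submodule.fg_span (Set.toFinite _), fun h => ?_⟩
  have h1 : a ∈ Submodule.span k {a, b} := Submodule.subset_span (by simp)
  rw [h, Submodule.mem_bot] at h1
  exact ha h1

end Pool.Agent.TG
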