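import Pool.Agent.Lib.TG.Basic

/-!
# TANK G, A6: equal centres, openness, blow ups
-/

set_option autoImplicit false

namespace Pool.Agent.TG

open Pool.Agent.LU2 (locV IsPar Mono le_locV locV_mono locV_le locV_inv locV_mem)

universe u

variable {k K : Type u} [Field k] [Field K] [Algebra k K] {V V' : ValuationSubring K}
  {P Q E : Submodule k K} {f g : K}

/-! ### Units of the local rings -/

theorem ne_zero_of_val_eq_one {x : K} (h : V.valuation x = 1) : x ≠ 0 := by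
  rintro rfl
  rw [map_zero] at h
  exact zero_ne_one h

theorem inv_mem_of_val_eq_one {x : K} (h : V.valuation x = 1) : x⁻¹ ∈ V := by
  rw [← V.valuation_le_one_iff, map_inv₀, h, inv_one]

theorem val_eq_one_of_mem_inv {x : K} (h0 : x ≠ 0) (h1 : x ∈ V) (h2 : x⁻¹ ∈ V) :
    V.valuation x = 1 := by
  rw [← V.valuation_le_one_iff] at h1 h2
  refine le_antisymm h1 ?_
  have h3 : V.valuation x ≠ 0 := (Valuation.ne_zero_iff _).2 h0
  rw [map_inv₀] at h2
  exact (inv_le_one₀ (zero_lt_iff.2 h3)).1 h2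

/-- An element of `RV V P` is a unit of `RV V P` iff it is a unit of `V`. -/
theorem RV_unit_iff (hV : Ov k V) (hP : IsModel P) {x : K} (hx : x ∈ RV V P) (h0 : x ≠ 0) :
    V.valuation x = 1 ↔ x⁻¹ ∈ RV V P := by
  exact ⟨fun h => RV_inv hx h, fun h =>
    val_eq_one_of_mem_inv h0 (RV_le hV hP _ hx) (RV_le hV hP _ h)⟩

theorem NV_unit_iff (hV : Ov k V) (hP : IsModel P) {x : K} (hx : x ∈ NV V P) (h0 : x ≠ 0) :
    V.valuation x = 1 ↔ x⁻¹ ∈ NV V P := by
  exact ⟨fun h => NV_inv hx h, fun h =>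
    val_eq_one_of_mem_inv h0 (NV_le hV hP _ hx) (NV_le hV hP _ h)⟩

/-! ### Equal centres -/

theorem RV_congr_centre (hf : IsMin V P f) (hf' : IsMin V' P f)
    (h : ∀ a ∈ ch P f, V.valuation a = 1 ↔ V'.valuation a = 1) : RV V P = RV V' P := by
  rw [RV_eq hf, RV_eq hf', locV_congr h]

theorem NV_congr_centre (hf : IsMin V P f) (hf' : IsMin V' P f)
    (h : ∀ a ∈ chN P f, V.valuation a = 1 ↔ V'.valuation a = 1) : NV V P = NV V' P := by
  rw [NV_eq hf, NV_eq hf', locV_congr h]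

theorem IsMin.of_RV_eq (hV' : Ov k V') (hP : IsModel P) (h : RV V P = RV V' P)
    (hf : IsMin V P f) : IsMin V' P f :=
  ⟨hf.mem, hf.ne, fun _ hg => RV_le hV' hP _ (h ▸ div_mem_RV hf hg)⟩

theorem val_eq_one_of_RV_eq (hV : Ov k V) (hV' : Ov k V') (hP : IsModel P)
    (h : RV V P = RV V' P) {x : K} (hx : x ∈ RV V P) :
    V.valuation x = 1 ↔ V'.valuation x = 1 := by
  rcases eq_or_ne x 0 with rfl | h0
  · simp
  · rw [RV_unit_iff hV hP hx h0, RV_unit_iff hV' hP (h ▸ hx) h0, h]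

/-- CENTRE LEMMA. -/
theorem RV_eq_iff (hV : Ov k V) (hV' : Ov k V') (hP : IsModel P) :
    RV V P = RV V' P ↔ ∃ f, IsMin V P f ∧ IsMin V' P f ∧
      ∀ a ∈ ch P f, V.valuation a = 1 ↔ V'.valuation a = 1 := by
  constructor
  · intro h
    obtain ⟨f, hf⟩ := exists_isMin hV hP
    refine ⟨f, hf, hf.of_RV_eq hV' hP h, fun a ha => ?_⟩
    refine val_eq_one_of_RV_eq hV hV' hP h ?_
    rw [RV_eq hf]
    exact le_locV _ ha
  · rintro ⟨f, hf, hf', h⟩
    exact RV_congr_centre hf hf' h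

theorem val_eq_one_of_NV_eq (hV : Ov k V) (hV' : Ov k V') (hP : IsModel P)
    (h : NV V P = NV V' P) {x : K} (hx : x ∈ NV V P) :
    V.valuation x = 1 ↔ V'.valuation x = 1 := by
  rcases eq_or_ne x 0 with rfl | h0
  · simp
  · rw [NV_unit_iff hV hP hx h0, NV_unit_iff hV' hP (h ▸ hx) h0, h]

/-- The local ring of the normalisation determines the local ring of the model. -/
theorem RV_eq_of_NV_eq (hV : Ov k V) (hV' : Ov k V') (hP : IsModel P)
    (h : NV V P = NV V' P) : RV V P = RV V' P := by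
  obtain ⟨f, hf⟩ := exists_isMin hV hP
  have hf' : IsMin V' P f :=
    ⟨hf.mem, hf.ne, fun g hg => NV_le hV' hP _ (h ▸ RV_le_NV (div_mem_RV hf hg))⟩
  refine RV_congr_centre hf hf' fun a ha => val_eq_one_of_NV_eq hV hV' hP h ?_
  exact RV_le_NV (by rw [RV_eq hf]; exact le_locV _ ha)

/-- CENTRE LEMMA for the normalisation. -/
theorem NV_eq_iff (hV : Ov k V) (hV' : Ov k V') (hP : IsModel P) :
    NV V P = NV V' P ↔ ∃ f, IsMin V P f ∧ IsMin V' P f ∧
      ∀ a ∈ chN P f, V.valuation a = 1 ↔ V'.valuation a = 1 := by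
  constructor
  · intro h
    obtain ⟨f, hf⟩ := exists_isMin hV hP
    refine ⟨f, hf, hf.of_RV_eq hV' hP (RV_eq_of_NV_eq hV hV' hP h), fun a ha => ?_⟩
    refine val_eq_one_of_NV_eq hV hV' hP h ?_
    rw [NV_eq hf]
    exact le_locV _ ha
  · rintro ⟨f, hf, hf', h⟩
    exact NV_congr_centre hf hf' h

/-! ### Openness -/

/-- An element of a local ring `locV V R` lies in `locV V' R` for all `V'` near `V`. -/
theorem locV_open {R : Subalgebra k K} {x : K} (hx : x ∈ locV V R) :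
    ∃ F : Finset K, (F : Set K) ⊆ V ∧ ∀ W : ValuationSubring K, (∀ a ∈ R, a ∈ W) →
      (F : Set K) ⊆ W → x ∈ locV W R := by
  classical
  obtain ⟨a, ha, b, hb, h1, rfl⟩ := hx
  refine ⟨{b⁻¹}, ?_, fun W hRW hF => ⟨a, ha, b, hb, ?_, rfl⟩⟩
  · intro y hy
    rw [Finset.mem_coe, Finset.mem_singleton] at hy
    subst hy
    exact inv_mem_of_val_eq_one h1
  · exact val_eq_one_of_mem_inv (ne_zero_of_val_eq_one h1) (hRW b hb) (hF (by simp))

/-- A minimal element of `P` stays minimal near `V`. -/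
theorem isMin_open (hP : P.FG) (hf : IsMin V P f) :
    ∃ F : Finset K, (F : Set K) ⊆ V ∧ ∀ W : ValuationSubring K, Ov k W → (F : Set K) ⊆ W →
      IsMin W P f := by
  classical
  obtain ⟨S, rfl⟩ := hP
  refine ⟨S.image fun g => g / f, ?_, fun W hW hF => isMin_of_span hW hf.mem hf.ne fun g hg => ?_⟩
  · intro y hy
    obtain ⟨g, hg, rfl⟩ := Finset.mem_image.1 (Finset.mem_coe.1 hy)
    exact hf.div g (Submodule.subset_span hg)
  · exact hF (Finset.mem_coe.2 (Finset.mem_image.2 ⟨g, hg, rfl⟩))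

/-- An element of `RV V P` lies in `RV W P` for all `W` near `V`. -/
theorem RV_open (hV : Ov k V) (hP : IsModel P) {x : K} (hx : x ∈ RV V P) :
    ∃ F : Finset K, (F : Set K) ⊆ V ∧ ∀ W : ValuationSubring K, Ov k W → (F : Set K) ⊆ W →
      x ∈ RV W P := by
  classical
  obtain ⟨f, hf⟩ := exists_isMin hV hP
  obtain ⟨F₁, h1, h2⟩ := isMin_open hP.fg hf
  rw [RV_eq hf] at hx
  obtain ⟨F₂, h3, h4⟩ := locV_open hx
  refine ⟨F₁ ∪ F₂, ?_, fun W hW hF => ?_⟩
  · rw [Finset.coe_union]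
    exact Set.union_subset h1 h3
  · rw [Finset.coe_union] at hF
    have hf' := h2 W hW (Set.subset_union_left.trans hF)
    rw [RV_eq hf']
    exact h4 W (ch_le hW hf') (Set.subset_union_right.trans hF)

theorem NV_open (hV : Ov k V) (hP : IsModel P) {x : K} (hx : x ∈ NV V P) :
    ∃ F : Finset K, (F : Set K) ⊆ V ∧ ∀ W : ValuationSubring K, Ov k W → (F : Set K) ⊆ W →
      x ∈ NV W P := by
  classical
  obtain ⟨f, hf⟩ := exists_isMin hV hP
  obtain ⟨F₁, h1, h2⟩ := isMin_open hP.fg hf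
  rw [NV_eq hf] at hx
  obtain ⟨F₂, h3, h4⟩ := locV_open hx
  refine ⟨F₁ ∪ F₂, ?_, fun W hW hF => ?_⟩
  · rw [Finset.coe_union]
    exact Set.union_subset h1 h3
  · rw [Finset.coe_union] at hF
    have hf' := h2 W hW (Set.subset_union_left.trans hF)
    rw [NV_eq hf']
    exact h4 W (ncl_mem (ch_le hW hf')) (Set.subset_union_right.trans hF)

end Pool.Agent.TG
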