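import Pool.Agent.Lib.GR.Fan

/-!
# TANK G: sublattices
-/

set_option autoImplicit false

namespace Pool.Agent.TG.Cnt

open Pool.Agent.GR (Vec InCone)
open Module (finrank)

variable {r : ℕ}

section General

variable {R M N : Type*} [CommRing R] [AddCommGroup M] [AddCommGroup N] [Module R M] [Module R N]

/-- A surjection onto a free module has a basis of its target lifted. -/
theorem exists_lift_basis [Module.Free R N] [Module.Finite R N] [Nontrivial R]
    (q : M →ₗ[R] N) (hq : Function.Surjective q) :
    ∃ b : Fin (finrank R N) → M, ∀ a : M, ∃ c : Fin (finrank R N) → R,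
      q (a - ∑ j, c j • b j) = 0 := by
  classical
  have hbas := Module.finBasis R N
  choose b hb using fun j => hq (hbas j)
  refine ⟨b, fun a => ⟨fun j => hbas.repr (q a) j, ?_⟩⟩
  rw [map_sub, map_sum, sub_eq_zero]
  have h1 : ∀ j, q (hbas.repr (q a) j • b j) = hbas.repr (q a) j • hbas j := by
    intro j
    rw [map_smul, hb]
  rw [Finset.sum_congr rfl fun j _ => h1 j]
  exact (hbas.sum_repr _).symm

/-- A complement of the saturation of `U` in `E`. -/
theorem exists_compl_gen [IsDomain R] [IsPrincipalIdealRing R] [Module.Finite R M]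
    (E U : Submodule R M) (h : U ≤ E) :
    ∃ (l : ℕ) (b : Fin l → M), (∀ j, b j ∈ E) ∧
      (∀ a ∈ E, ∃ u ∈ E, (∃ m : R, m ≠ 0 ∧ m • u ∈ U) ∧ ∃ c : Fin l → R,
        a = u + ∑ j, c j • b j) ∧ l + finrank R U = finrank R E := by
  classical
  let U' : Submodule R E := U.comap E.subtype
  let T : Submodule R (E ⧸ U') := Submodule.torsion R (E ⧸ U')
  have hsur : Function.Surjective (T.mkQ ∘ₗ U'.mkQ) := by
    rw [LinearMap.coe_comp]
    exact (Submodule.mkQ_surjective T).comp (Submodule.mkQ_surjective U')
  obtain ⟨b, hb⟩ := exists_lift_basis _ hsur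
  refine ⟨finrank R ((E ⧸ U') ⧸ T), fun j => b j, fun j => (b j).2, fun a ha => ?_, ?_⟩
  · obtain ⟨c, hu⟩ := hb ⟨a, ha⟩
    have hu1 : U'.mkQ (⟨a, ha⟩ - ∑ j, c j • b j) ∈ T := by
      rw [LinearMap.comp_apply, Submodule.mkQ_apply T, Submodule.Quotient.mk_eq_zero] at hu
      exact hu
    rw [Submodule.mem_torsion_iff] at hu1
    obtain ⟨m, hm⟩ := hu1
    refine ⟨((⟨a, ha⟩ - ∑ j, c j • b j : E) : M), Subtype.mem _,
      ⟨m, nonZeroDivisors.ne_zero m.2, ?_⟩, c, ?_⟩
    · have h1 : U'.mkQ ((m : R) • (⟨a, ha⟩ - ∑ j, c j • b j)) = 0 := by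
        rw [map_smul]
        exact hm
      rw [Submodule.mkQ_apply, Submodule.Quotient.mk_eq_zero] at h1
      exact h1
    · push_cast
      rw [sub_add_cancel]
  · have h1 : finrank R ((E ⧸ U') ⧸ T) = finrank R (E ⧸ U') :=
      finrank_quotient_eq_of_le_torsion le_rfl
    have h2 : finrank R (E ⧸ U') + finrank R U' = finrank R E :=
      U'.finrank_quotient_add_finrank
    have h3 : finrank R U' = finrank R U := (Submodule.comapSubtypeEquivOfLe h).finrank_eq
    omega

end General

/-- A complement of the saturation of `U` in `E`. -/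
theorem exists_compl (E U : Submodule ℤ (Vec r)) (h : U ≤ E) :
    ∃ (l : ℕ) (b : Fin l → Vec r), (∀ j, b j ∈ E) ∧
      (∀ a ∈ E, ∃ u ∈ E, (∃ m : ℤ, m ≠ 0 ∧ m • u ∈ U) ∧ ∃ c : Fin l → ℤ,
        a = u + ∑ j, c j • b j) ∧ l + finrank ℤ U = finrank ℤ E :=
  exists_compl_gen E U h

variable (e : Module.Basis (Fin r) ℤ (Vec r)) (S : Finset (Fin r))

/-- The sublattice where the coordinates in `S` are zero. -/
def coo : Submodule ℤ (Vec r) where
  carrier := {a | ∀ i ∈ S, e.repr a i = 0}
  add_mem' := by
    intro a b ha hb i hi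
    rw [map_add, Finsupp.add_apply, ha i hi, hb i hi, add_zero]
  zero_mem' := by
    intro i _
    rw [map_zero, Finsupp.zero_apply]
  smul_mem' := by
    intro c a ha i hi
    rw [map_smul, Finsupp.smul_apply, ha i hi, smul_zero]

theorem mem_coo {a : Vec r} : a ∈ coo e S ↔ ∀ i ∈ S, e.repr a i = 0 := Iff.rfl

theorem finrank_coo : finrank ℤ (coo e S) + S.card = r := by
  classical
  let f : Vec r →ₗ[ℤ] (S → ℤ) :=
    { toFun := fun a i => e.repr a i
      map_add' := by
        intro a b
        funext i
        rw [map_add, Finsupp.add_apply]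
        rfl
      map_smul' := by
        intro c a
        funext i
        rw [map_smul, Finsupp.smul_apply]
        rfl }
  have hf : Function.Surjective f := by
    intro g
    refine ⟨∑ i : S, g i • e i, ?_⟩
    funext j
    change e.repr (∑ i : S, g i • e i) j = g j
    rw [map_sum, Finsupp.finsetSum_apply]
    rw [Finset.sum_eq_single j]
    · rw [map_smul, Finsupp.smul_apply, e.repr_self, Finsupp.single_eq_same, smul_eq_mul, mul_one]
    · intro i _ hij
      rw [map_smul, Finsupp.smul_apply, e.repr_self, Finsupp.single_eq_of_ne, smul_zero]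
      exact fun h => hij (Subtype.ext h.symm)
    · intro h
      exact absurd (Finset.mem_univ j) h
  have hk : LinearMap.ker f = coo e S := by
    ext a
    rw [LinearMap.mem_ker, mem_coo]
    constructor
    · intro h i hi
      exact congrFun h ⟨i, hi⟩
    · intro h
      funext i
      exact h i i.2
  have h1 := (LinearMap.ker f).finrank_quotient_add_finrank
  have h2 := (f.quotKerEquivOfSurjective hf).finrank_eq
  rw [h2, hk] at h1
  simp only [Module.finrank_fintype_fun_eq_card, Fintype.card_coe, Fintype.card_fin] at h1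
  omega

end Pool.Agent.TG.Cnt
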