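import Pool.Agent.Lib.TG.WLz
import Pool.Agent.Lib.LU2_h15.Stage3B
import Pool.Agent.Lib.MP_d9447e_al_helper1.Reg

/-!
# TANK G: regular local rings with monomials; comparability; domination comes for free
-/

set_option autoImplicit false

namespace Pool.Agent.TG

open IsLocalRing
open Pool.Agent.LU2 (locV IsPar Mono le_locV locV_mono locV_le locV_inv locV_mem locV_locV
  locV_noeth locV_local)

universe u

section Ring

variable {R : Type*} [CommRing R] {n : ℕ}

/-- Peeling off parameters. -/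
theorem peel (x : Fin n → R) (S : Finset (Fin n))
    (hreg : ∀ j ∉ S, ∀ f : R, x j * f ∈ Ideal.span (x '' (S : Set (Fin n))) →
      f ∈ Ideal.span (x '' (S : Set (Fin n)))) (c : Fin n → ℕ) (hc : ∀ i ∈ S, c i = 0) (f : R)
    (h : (∏ i, x i ^ c i) * f ∈ Ideal.span (x '' (S : Set (Fin n)))) :
    f ∈ Ideal.span (x '' (S : Set (Fin n))) := by
  classical
  have hpow : ∀ (j : Fin n) (_ : j ∉ S) (m : ℕ) (g : R),
      x j ^ m * g ∈ Ideal.span (x '' (S : Set (Fin n))) →
      g ∈ Ideal.span (x '' (S : Set (Fin n))) := by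
    intro j hj m
    induction m with
    | zero => intro g hg; rwa [pow_zero, one_mul] at hg
    | succ m ih =>
      intro g hg
      refine ih g (hreg j hj _ ?_)
      rwa [pow_succ', mul_assoc] at hg
  have key : ∀ T : Finset (Fin n), ∀ g : R,
      (∏ i ∈ T, x i ^ c i) * g ∈ Ideal.span (x '' (S : Set (Fin n))) →
      g ∈ Ideal.span (x '' (S : Set (Fin n))) := by
    intro T
    induction T using Finset.induction_on with
    | empty => intro g hg; rwa [Finset.prod_empty, one_mul] at hg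
    | insert j T hj ih =>
      intro g hg
      rw [Finset.prod_insert hj, mul_assoc] at hg
      by_cases hjS : j ∈ S
      · rw [hc j hjS, pow_zero, one_mul] at hg
        exact ih g hg
      · exact ih g (hpow j hjS _ _ hg)
  exact key Finset.univ f h

theorem dvd_mono (x : Fin n → R) (c : Fin n → ℕ) {i : Fin n} (hi : c i ≠ 0) :
    x i ∣ ∏ i, x i ^ c i :=
  (dvd_pow_self _ hi).trans (Finset.dvd_prod_of_mem _ (Finset.mem_univ i))

/-- **The comparability lemma** (helper55). -/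
theorem no_mix [IsLocalRing R] (x : Fin n → R) (hx : ∀ i, x i ∈ maximalIdeal R)
    (hreg : ∀ (S : Finset (Fin n)), ∀ j ∉ S, ∀ f : R,
      x j * f ∈ Ideal.span (x '' (S : Set (Fin n))) → f ∈ Ideal.span (x '' (S : Set (Fin n))))
    (a b c d : Fin n → ℕ) (hab : ∀ i, a i = 0 ∨ b i = 0) (ha : ∃ i, a i ≠ 0)
    (hb : ∃ i, b i ≠ 0) (hcd : ∀ i, c i = 0 ∨ d i = 0) {u v w : R} (hu : IsUnit u)
    (hv : IsUnit v) (hw : IsUnit w)
    (h : (∏ i, x i ^ d i) * (u * (∏ i, x i ^ a i) - v * ∏ i, x i ^ b i) =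
      w * ∏ i, x i ^ c i) : False := by
  classical
  have hS : ∀ (S : Finset (Fin n)) {y : R}, IsUnit y → y ∉ Ideal.span (x '' (S : Set (Fin n))) := by
    intro S y hy hmem
    have h1 : Ideal.span (x '' (S : Set (Fin n))) ≤ maximalIdeal R := by
      rw [Ideal.span_le]
      rintro _ ⟨i, _, rfl⟩
      exact hx i
    exact (mem_nonunits_iff.1 ((mem_maximalIdeal y).1 (h1 hmem))) hy
  have hone : ∀ {i : Fin n} {y : R}, x i ∣ y →
      y ∈ Ideal.span (x '' (({i} : Finset (Fin n)) : Set (Fin n))) := by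
    intro i y hy
    rw [Finset.coe_singleton, Set.image_singleton, Ideal.mem_span_singleton]
    exact hy
  -- step 1
  have hd : ∀ j, d j = 0 := by
    intro j
    by_contra hj
    have hcj : c j = 0 := (hcd j).resolve_right hj
    refine hS {j} hw (peel x {j} (hreg {j}) c (by simpa using hcj) w (hone ?_))
    rw [mul_comm, ← h]
    exact (dvd_mono x d hj).mul_right _
  have hd1 : (∏ i, x i ^ d i) = 1 := Finset.prod_eq_one fun i _ => by rw [hd i, pow_zero]
  rw [hd1, one_mul] at h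
  obtain ⟨i, hi⟩ := ha
  obtain ⟨j, hj⟩ := hb
  have hbi : b i = 0 := (hab i).resolve_left hi
  have haj : a j = 0 := (hab j).resolve_right hj
  have hci : c i = 0 := by
    by_contra hci
    refine hS {i} hv (peel x {i} (hreg {i}) b (by simpa using hbi) v (hone ?_))
    have e : (∏ i, x i ^ b i) * v = u * (∏ i, x i ^ a i) - w * ∏ i, x i ^ c i := by
      rw [← h]; ring
    rw [e]
    exact dvd_sub ((dvd_mono x a hi).mul_left _) ((dvd_mono x c hci).mul_left _)
  have hcj : c j = 0 := by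
    by_contra hcj
    refine hS {j} hu (peel x {j} (hreg {j}) a (by simpa using haj) u (hone ?_))
    have e : (∏ i, x i ^ a i) * u = w * (∏ i, x i ^ c i) + v * ∏ i, x i ^ b i := by
      rw [← h]; ring
    rw [e]
    exact dvd_add ((dvd_mono x c hcj).mul_left _) ((dvd_mono x b hj).mul_left _)
  refine hS {i, j} hw (peel x {i, j} (hreg {i, j}) c (fun l hl => ?_) w ?_)
  · rcases Finset.mem_insert.1 hl with rfl | hl
    · exact hci
    · rw [Finset.mem_singleton.1 hl]
      exact hcj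
  · rw [mul_comm, ← h]
    have hi' : x i ∈ Ideal.span (x '' (({i, j} : Finset (Fin n)) : Set (Fin n))) :=
      Ideal.subset_span ⟨i, by simp, rfl⟩
    have hj' : x j ∈ Ideal.span (x '' (({i, j} : Finset (Fin n)) : Set (Fin n))) :=
      Ideal.subset_span ⟨j, by simp, rfl⟩
    refine Ideal.sub_mem _ (Ideal.mul_mem_left _ _ ?_) (Ideal.mul_mem_left _ _ ?_)
    · exact Ideal.mem_of_dvd _ (dvd_mono x a hi) hi'
    · exact Ideal.mem_of_dvd _ (dvd_mono x b hj) hj'

end Ring

section Field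

variable {k K : Type u} [Field k] [Field K] [Algebra k K] {V : ValuationSubring K}
  {R : Subalgebra k K} {n : ℕ} {t : Fin n → K}

theorem ne_zero_of_val_one {x : K} (h : V.valuation x = 1) : x ≠ 0 := by
  rintro rfl
  rw [map_zero] at h
  exact zero_ne_one h

theorem RegAt.inv (h : RegAt V R t) {f : K} (hf : f ∈ R) (h1 : V.valuation f = 1) : f⁻¹ ∈ R := by
  obtain ⟨A, -, rfl⟩ := h.fg
  exact locV_inv hf h1

theorem RegAt.noeth (h : RegAt V R t) (hR : ∀ a ∈ R, a ∈ V) : IsNoetherianRing R := by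
  obtain ⟨A, hA, rfl⟩ := h.fg
  exact locV_noeth V A (fun a ha => hR a (le_locV _ ha)) hA

theorem RegAt.local (h : RegAt V R t) (hR : ∀ a ∈ R, a ∈ V) : IsLocalRing R := by
  obtain ⟨A, -, rfl⟩ := h.fg
  exact locV_local V A (fun a ha => hR a (le_locV _ ha))

theorem RegAt.isUnit_iff (h : RegAt V R t) (hR : ∀ a ∈ R, a ∈ V) (f : R) :
    IsUnit f ↔ V.valuation (f : K) = 1 := by
  constructor
  · intro hu
    obtain ⟨y, hy⟩ := hu.exists_right_inv
    have h1 : (f : K) * (y : K) = 1 := congrArg (fun t : R => (t : K)) hy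
    have hf := (V.valuation_le_one_iff _).2 (hR f f.2)
    have hy' := (V.valuation_le_one_iff _).2 (hR y y.2)
    refine le_antisymm hf (not_lt.1 fun hlt => ?_)
    have h2 := mul_lt_one_of_lt_of_le hlt hy'
    rw [← map_mul, h1, map_one] at h2
    exact lt_irrefl _ h2
  · intro h1
    exact IsUnit.of_mul_eq_one ⟨_, h.inv f.2 h1⟩
      (Subtype.ext (mul_inv_cancel₀ (ne_zero_of_val_one h1)))

theorem RegAt.mem_max (h : RegAt V R t) (hR : ∀ a ∈ R, a ∈ V) [IsLocalRing R] (f : R) :
    f ∈ maximalIdeal R ↔ V.valuation (f : K) < 1 := by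
  rw [mem_maximalIdeal, mem_nonunits_iff, h.isUnit_iff hR]
  have hf := (V.valuation_le_one_iff _).2 (hR f f.2)
  exact ⟨fun h1 => lt_of_le_of_ne hf h1, fun h1 => h1.ne⟩

/-- The parameters as elements of the ring. -/
def parEl (h : RegAt V R t) (i : Fin n) : R := ⟨t i, h.par.mem i⟩

theorem RegAt.span_par (h : RegAt V R t) (hR : ∀ a ∈ R, a ∈ V) [IsLocalRing R] :
    Ideal.span (Set.range (parEl h)) = maximalIdeal R := by
  refine le_antisymm (Ideal.span_le.2 ?_) fun f hf => ?_
  · rintro _ ⟨i, rfl⟩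
    exact (h.mem_max hR _).2 (h.par.pos i)
  · obtain ⟨a, ha, hfa⟩ := h.par.gen f f.2 ((h.mem_max hR f).1 hf)
    have e : f = ∑ i, (⟨a i, ha i⟩ : R) * parEl h i := by
      ext
      rw [AddSubmonoidClass.coe_finsetSum]
      exact hfa
    rw [e]
    exact Ideal.sum_mem _ fun i _ => Ideal.mul_mem_left _ _ (Ideal.subset_span ⟨i, rfl⟩)

theorem RegAt.isRegular (h : RegAt V R t) (hR : ∀ a ∈ R, a ∈ V) : IsRegularLocalRing R := by
  have hn := h.noeth hR
  have hl := h.local hR
  apply IsRegularLocalRing.of_spanFinrank_maximalIdeal_le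
  rw [h.par.dim, ← h.span_par hR]
  have h1 := Submodule.spanFinrank_span_le_ncard_of_finite (R := R)
    (Set.finite_range (parEl h))
  have h2 : (Set.range (parEl h)).ncard ≤ n := by
    rw [← Set.image_univ]
    refine (Set.ncard_image_le Set.finite_univ).trans ?_
    rw [Set.ncard_univ, Nat.card_eq_fintype_card, Fintype.card_fin]
  exact_mod_cast h1.trans h2

theorem RegAt.reg (h : RegAt V R t) (hR : ∀ a ∈ R, a ∈ V) (S : Finset (Fin n)) (j : Fin n)
    (hj : j ∉ S) (f : R) (hf : parEl h j * f ∈ Ideal.span (parEl h '' (S : Set (Fin n)))) :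
    f ∈ Ideal.span (parEl h '' (S : Set (Fin n))) := by
  have hreg := h.isRegular hR
  exact Pool.Agent.BEH5.Reg.params_regular h.par.dim (parEl h) (h.span_par hR) S j hj f hf

/-- A Laurent monomial in the parameters times a unit. -/
def MonoZ (V : ValuationSubring K) (R : Subalgebra k K) {n : ℕ} (t : Fin n → K) (x : K) : Prop :=
  ∃ e : Fin n → ℤ, ∃ w ∈ R, V.valuation w = 1 ∧ x = (∏ i, t i ^ e i) * w

theorem prod_zpow_toNat (ht : ∀ i, t i ≠ 0) (e : Fin n → ℤ) :
    (∏ i, t i ^ e i) * (∏ i, t i ^ (-e i).toNat) = ∏ i, t i ^ (e i).toNat := by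
  rw [← Finset.prod_mul_distrib]
  refine Finset.prod_congr rfl fun i _ => ?_
  rw [← zpow_natCast, ← zpow_natCast, ← zpow_add₀ (ht i)]
  congr 1
  omega

theorem prod_pow_lt (hpos : ∀ i, V.valuation (t i) < 1) {c : Fin n → ℕ} {i : Fin n}
    (hi : c i ≠ 0) : V.valuation (∏ i, t i ^ c i) < 1 := by
  classical
  rw [map_prod, ← Finset.mul_prod_erase _ _ (Finset.mem_univ i)]
  refine mul_lt_one_of_lt_of_le ?_ (Finset.prod_le_one' fun j _ => ?_)
  · rw [map_pow]
    exact pow_lt_one₀ zero_le (hpos i) hi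
  · rw [map_pow]
    exact pow_le_one' (hpos j).le _

/-- Exponents of one sign: `Mono`. -/
theorem mono_of_nonneg (hpos : ∀ i, V.valuation (t i) < 1) {e : Fin n → ℤ} (he : ∀ i, 0 ≤ e i) {w : K} (hw : w ∈ R)
    (hw1 : V.valuation w = 1) : Mono V R t ((∏ i, t i ^ e i) * w) := by
  refine ⟨e, w, hw, hw1, rfl, fun _ => he, fun h i => ?_⟩
  by_contra hcon
  have h1 : (∏ i, t i ^ e i) = ∏ i, t i ^ (e i).toNat := by
    refine Finset.prod_congr rfl fun i _ => ?_
    rw [← zpow_natCast, Int.toNat_of_nonneg (he i)]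
  rw [map_mul, hw1, mul_one, h1] at h
  exact absurd (prod_pow_lt hpos (c := fun i => (e i).toNat) (i := i) (by
    have := he i
    omega)) (not_lt.2 h)

theorem mono_of_nonpos (hpos : ∀ i, V.valuation (t i) < 1) {e : Fin n → ℤ} (he : ∀ i, e i ≤ 0)
    {w : K} (hw1 : V.valuation w = 1) (hwi : w⁻¹ ∈ R) (hinv : ∀ f ∈ R, V.valuation f = 1 → f⁻¹ ∈ R) :
    Mono V R t ((∏ i, t i ^ e i) * w) := by
  have h1 := mono_of_nonneg hpos (e := fun i => - e i) (fun i => by
    have := he i
    omega) hwi (by rw [map_inv₀, hw1, inv_one])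
  have h2 := Mono.inv hinv h1
  rw [mul_inv, inv_inv, ← Finset.prod_inv_distrib] at h2
  simpa only [zpow_neg, inv_inv] using h2

/-- **helper55's lemma**: if `x` and `x - 1` are Laurent monomials up to units, then `x` has
exponents of one sign. -/
theorem RegAt.mono (h : RegAt V R t) (hR : ∀ a ∈ R, a ∈ V) {x : K} (hx : MonoZ V R t x)
    (hx1 : x = 1 ∨ MonoZ V R t (x - 1)) : Mono V R t x := by
  rcases hx1 with rfl | hx1
  · exact Mono.one
  obtain ⟨e, u, hu, hu1, rfl⟩ := hx
  obtain ⟨f, w, hw, hw1, hfw⟩ := hx1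
  have ht := h.par.ne
  by_cases hneg : ∀ i, 0 ≤ e i
  · exact mono_of_nonneg h.par.pos hneg hu hu1
  by_cases hpos : ∀ i, e i ≤ 0
  · exact mono_of_nonpos h.par.pos hpos hu1 (h.inv hu hu1) fun _ hf h1 => h.inv hf h1
  exfalso
  push Not at hneg hpos
  have hn := h.noeth hR
  have hl := h.local hR
  -- the exponents
  set g : Fin n → ℤ := fun i => f i + ((-e i).toNat : ℤ) with hg
  have hb := prod_zpow_toNat ht e
  have hgg := prod_zpow_toNat ht g
  have hgf : (∏ i, t i ^ g i) = (∏ i, t i ^ f i) * ∏ i, t i ^ (-e i).toNat := by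
    rw [← Finset.prod_mul_distrib]
    refine Finset.prod_congr rfl fun i _ => ?_
    rw [← zpow_natCast (t i), ← zpow_add₀ (ht i)]
  have hcoe : ∀ c : Fin n → ℕ, ((∏ i, parEl h i ^ c i : R) : K) = ∏ i, t i ^ c i := fun c => by
    rw [SubmonoidClass.coe_finsetProd]
    rfl
  refine no_mix (parEl h) (fun i => (h.mem_max hR _).2 (h.par.pos i))
    (fun S j hj y hy => h.reg hR S j hj y hy) (fun i => (e i).toNat) (fun i => (-e i).toNat)
    (fun i => (g i).toNat) (fun i => (-g i).toNat) (fun i => by omega) ?_ ?_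
    (fun i => by omega) (u := ⟨u, hu⟩) (v := 1) (w := ⟨w, hw⟩) ((h.isUnit_iff hR _).2 hu1)
    isUnit_one ((h.isUnit_iff hR _).2 hw1) ?_
  · obtain ⟨i, hi⟩ := hpos
    exact ⟨i, by omega⟩
  · obtain ⟨i, hi⟩ := hneg
    exact ⟨i, by omega⟩
  · ext
    simp only [MulMemClass.coe_mul, AddSubgroupClass.coe_sub, hcoe, one_mul]
    rw [← hgg, hgf, ← hb]
    linear_combination ((∏ i, t i ^ (-g i).toNat) * (∏ i, t i ^ (-e i).toNat)) * hfw

end Field

section WL

/-- Log resolution without domination, Laurent monomials allowed. -/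
def LogRegW {k K : Type u} [Field k] [Field K] [Algebra k K] (n : ℕ) (P : Submodule k K)
    (Z : Set K) : Prop :=
  ∀ V : ValuationSubring K, ZDim k V → ∃ t : Fin n → K, RegAt V (RV V P) t ∧
    ∀ z ∈ Z, MonoZ V (RV V P) t z

/-- `[n]` without domination. -/
def WLw (k : Type u) [Field k] (n : ℕ) : Prop :=
  ∀ (K : Type u) [Field K] [Algebra k K], (⊤ : IntermediateField k K).FG →
    Algebra.trdeg k K = n → ∀ Z : Finset K, (∀ z ∈ Z, z ≠ 0) →
      ∃ P : Submodule k K, IsModel P ∧ LogRegW n P (Z : Set K)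

/-- The monomials with exponents of one sign come for free (helper55). -/
theorem wlz_of_wlw (k : Type u) [Field k] (n : ℕ) (h : WLw k n) : WLz k n := by
  classical
  intro K _ _ hK hn Z hZ
  set Z₂ : Finset K := (Z ∪ Z.image fun z => z - 1).filter (· ≠ 0)
  obtain ⟨P, hP, hPZ⟩ := h K hK hn Z₂ fun z hz => (Finset.mem_filter.1 hz).2
  refine ⟨P, hP, fun V hV => ?_⟩
  obtain ⟨t, ht, htZ⟩ := hPZ V hV
  refine ⟨t, ht, fun z hz => ht.mono (RV_le hV.ov hP) (htZ z ?_) ?_⟩
  · exact Finset.mem_coe.2 (Finset.mem_filter.2 ⟨Finset.mem_union_left _ (Finset.mem_coe.1 hz),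
      hZ z (Finset.mem_coe.1 hz)⟩)
  · by_cases h1 : z = 1
    · exact Or.inl h1
    · exact Or.inr (htZ _ (Finset.mem_coe.2 (Finset.mem_filter.2
        ⟨Finset.mem_union_right _ (Finset.mem_image_of_mem _ (Finset.mem_coe.1 hz)),
          sub_ne_zero.2 h1⟩)))

/-- **`[n]` without domination and with Laurent monomials implies `[n]`**. -/
theorem wl_of_wlw (k : Type u) [Field k] [IsAlgClosed k] (n : ℕ) (h : WLw k n) : WL k n :=
  WL_of_WLz (wlz_of_wlw k n h)

end WL

end Pool.Agent.TG
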