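import Pool.Agent.Lib.TG.Dim
import Pool.Agent.Lib.TG.CountL
import Pool.Agent.Lib.TG.Reg

/-!
# TANK G: regularity by counting

`O'` is a local ring at `V` which contains the values of a character `ψ` at a basis `e` of `ℤ^N`,
and whose elements are constant modulo every ideal `J` for which the `ψ (e i)` are constant modulo
`J` and which contains `y 1, .., y D`.  If the rank of `ψ` modulo units is `n - D`, then `O'` is
regular and the values of `ψ` are monomials times units.
-/

set_option autoImplicit false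

open Polynomial

namespace Pool.Agent.TG.Cnt

open Pool.Agent.GR (Vec InCone)
open Pool.Agent.LU2 (locV IsPar Mono le_locV locV_mono locV_le locV_inv locV_mem locV_locV)
open Module (finrank)

universe u

variable {k K : Type u} [Field k] [Field K] [Algebra k K] {V : ValuationSubring K} {r : ℕ}

/-! ### Characters -/

/-- A character with values in `K`. -/
structure IsChar (χ : Vec r → K) : Prop where
  ne : ∀ a, χ a ≠ 0
  add : ∀ a b, χ (a + b) = χ a * χ b

section Char

variable {χ : Vec r → K}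

theorem IsChar.zero (h : IsChar χ) : χ 0 = 1 := by
  have h1 := h.add 0 0
  rw [add_zero] at h1
  exact mul_right_cancel₀ (h.ne 0) (by rw [← h1, one_mul])

theorem IsChar.neg (h : IsChar χ) (a : Vec r) : χ (-a) = (χ a)⁻¹ := by
  have h1 := h.add a (-a)
  rw [add_neg_cancel, h.zero] at h1
  exact (inv_eq_of_mul_eq_one_right h1.symm).symm

theorem IsChar.nsmul (h : IsChar χ) (m : ℕ) (a : Vec r) : χ (m • a) = χ a ^ m := by
  induction m with
  | zero => rw [zero_smul, h.zero, pow_zero]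
  | succ m ih => rw [succ_nsmul, h.add, ih, pow_succ]

theorem IsChar.zsmul (h : IsChar χ) (m : ℤ) (a : Vec r) : χ (m • a) = χ a ^ m := by
  cases m with
  | ofNat m => rw [Int.ofNat_eq_natCast, natCast_zsmul, h.nsmul, zpow_natCast]
  | negSucc m => rw [negSucc_zsmul, h.neg, h.nsmul, zpow_negSucc]

theorem IsChar.sum (h : IsChar χ) {ι : Type*} (s : Finset ι) (f : ι → Vec r) :
    χ (∑ i ∈ s, f i) = ∏ i ∈ s, χ (f i) := by
  classical
  induction s using Finset.induction_on with
  | empty => rw [Finset.sum_empty, Finset.prod_empty, h.zero]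
  | insert a s ha ih => rw [Finset.sum_insert ha, Finset.prod_insert ha, h.add, ih]

theorem IsChar.repr (h : IsChar χ) (e : Module.Basis (Fin r) ℤ (Vec r)) (a : Vec r) :
    χ a = ∏ i, χ (e i) ^ e.repr a i := by
  conv_lhs => rw [← e.sum_repr a]
  rw [h.sum]
  exact Finset.prod_congr rfl fun i _ => h.zsmul _ _

end Char

/-! ### Elements which are constant modulo an ideal -/

/-- The elements of `O` which are constant modulo `J`. -/
def cst (O : Subalgebra k K) (J : Submodule O K) : Subalgebra k K where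
  carrier := {f | f ∈ O ∧ ∃ c : k, f - algebraMap k K c ∈ J}
  mul_mem' := by
    rintro f g ⟨hf, c, hc⟩ ⟨hg, d, hd⟩
    refine ⟨O.mul_mem hf hg, c * d, ?_⟩
    have h1 : f * g - algebraMap k K (c * d) =
        (⟨f, hf⟩ : O) • (g - algebraMap k K d) +
          (⟨algebraMap k K d, O.algebraMap_mem d⟩ : O) • (f - algebraMap k K c) := by
      change f * g - algebraMap k K (c * d) =
        f * (g - algebraMap k K d) + algebraMap k K d * (f - algebraMap k K c)
      rw [map_mul]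
      ring
    rw [h1]
    exact J.add_mem (J.smul_mem _ hd) (J.smul_mem _ hc)
  add_mem' := by
    rintro f g ⟨hf, c, hc⟩ ⟨hg, d, hd⟩
    refine ⟨O.add_mem hf hg, c + d, ?_⟩
    rw [map_add, add_sub_add_comm]
    exact J.add_mem hc hd
  algebraMap_mem' := fun c => ⟨O.algebraMap_mem c, c, by rw [sub_self]; exact J.zero_mem⟩

section Cst

variable {O : Subalgebra k K} {J : Submodule O K} {f : K}

theorem mem_cst : f ∈ cst O J ↔ f ∈ O ∧ ∃ c : k, f - algebraMap k K c ∈ J := Iff.rfl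

theorem val_algebraMap (hV : Ov k V) {c : k} (hc : c ≠ 0) : V.valuation (algebraMap k K c) = 1 := by
  refine le_antisymm ((V.valuation_le_one_iff _).2 (hV c)) ?_
  have h1 : V.valuation (algebraMap k K c⁻¹) ≤ 1 := (V.valuation_le_one_iff _).2 (hV _)
  rw [map_inv₀, map_inv₀] at h1
  exact (inv_le_one₀ ((Valuation.pos_iff _).2 ((_root_.map_ne_zero _).2 hc))).1 h1

theorem const_eq_zero (hV : Ov k V) {c : k} (h : V.valuation (algebraMap k K c) < 1) : c = 0 := by
  by_contra hc
  rw [val_algebraMap hV hc] at h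
  exact lt_irrefl _ h

theorem mem_of_cst (hV : Ov k V) (hJ : ∀ x ∈ J, V.valuation x < 1) (hf : f ∈ cst O J)
    (h1 : V.valuation f < 1) : f ∈ J := by
  obtain ⟨-, c, hc⟩ := hf
  have h2 : V.valuation (algebraMap k K c) < 1 := by
    have h3 := Valuation.map_sub_lt _ h1 (hJ _ hc)
    rwa [sub_sub_cancel] at h3
  rw [const_eq_zero hV h2, map_zero, sub_zero] at hc
  exact hc

theorem mem_cst_of_mem (hf : f ∈ O) (h : f ∈ J) : f ∈ cst O J :=
  ⟨hf, 0, by rwa [map_zero, sub_zero]⟩

theorem cst_inv (hJ : ∀ x ∈ J, V.valuation x < 1) (hf : f ∈ cst O J)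
    (h1 : V.valuation f = 1) (hi : f⁻¹ ∈ O) : f⁻¹ ∈ cst O J := by
  obtain ⟨hfO, c, hc⟩ := hf
  have hc0 : c ≠ 0 := by
    rintro rfl
    rw [map_zero, sub_zero] at hc
    exact absurd h1 (hJ _ hc).ne
  have hf0 : f ≠ 0 := by
    rintro rfl
    rw [map_zero] at h1
    exact zero_ne_one h1
  refine ⟨hi, c⁻¹, ?_⟩
  have hcK : algebraMap k K c ≠ 0 := (_root_.map_ne_zero _).2 hc0
  have h2 : f⁻¹ - algebraMap k K c⁻¹ =
      (-(⟨f⁻¹, hi⟩ * ⟨algebraMap k K c⁻¹, O.algebraMap_mem _⟩) : O) • (f - algebraMap k K c) := by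
    change f⁻¹ - algebraMap k K c⁻¹ = -(f⁻¹ * algebraMap k K c⁻¹) * (f - algebraMap k K c)
    rw [map_inv₀]
    field_simp
    ring
  rw [h2]
  exact J.smul_mem _ hc

theorem cst_zpow (hJ : ∀ x ∈ J, V.valuation x < 1) (hf : f ∈ cst O J)
    (h1 : V.valuation f = 1) (hi : f⁻¹ ∈ O) (m : ℤ) : f ^ m ∈ cst O J := by
  cases m with
  | ofNat m => rw [Int.ofNat_eq_natCast, zpow_natCast]; exact Subalgebra.pow_mem _ hf m
  | negSucc m =>
    rw [zpow_negSucc, ← inv_pow]
    exact Subalgebra.pow_mem _ (cst_inv hJ hf h1 hi) _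

/-- Simple roots of polynomials with coefficients which are constant modulo `J`. -/
theorem cst_root (hV : Ov k V) (hO : ∀ a ∈ O, a ∈ V)
    (hOi : ∀ a ∈ O, V.valuation a = 1 → a⁻¹ ∈ O) (hJ : ∀ x ∈ J, V.valuation x < 1)
    {Φ : Polynomial K} (hΦ : ∀ i, Φ.coeff i ∈ cst O J) {θ : K} (hθ : θ ∈ O) {c : k}
    (hc : V.valuation (θ - algebraMap k K c) < 1) (h0 : Φ.eval θ = 0)
    (h1 : V.valuation (Φ.derivative.eval θ) = 1) : θ ∈ cst O J := by
  set C0 : K := algebraMap k K c with hC0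
  have hlift : Φ ∈ Polynomial.lifts (algebraMap (cst O J) K) := by
    rw [Polynomial.lifts_iff_coeff_lifts]
    intro i
    exact ⟨⟨Φ.coeff i, hΦ i⟩, rfl⟩
  obtain ⟨p, hp⟩ := (Polynomial.mem_lifts _).1 hlift
  obtain ⟨q, hq⟩ := Polynomial.X_sub_C_dvd_sub_C_eval (a := (algebraMap k (cst O J) c)) (p := p)
  have hcc : algebraMap (cst O J) K (algebraMap k (cst O J) c) = C0 := rfl
  set Q : Polynomial K := q.map (algebraMap (cst O J) K) with hQ
  have hQO : ∀ x ∈ O, Q.eval x ∈ O := by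
    intro x hx
    rw [Polynomial.eval_eq_sum_range]
    refine Subalgebra.sum_mem _ fun i _ => Subalgebra.mul_mem _ ?_ (Subalgebra.pow_mem _ hx i)
    rw [hQ, Polynomial.coeff_map]
    exact (q.coeff i).2.1
  have hQ'O : ∀ x ∈ O, Q.derivative.eval x ∈ O := by
    intro x hx
    rw [hQ, Polynomial.derivative_map, Polynomial.eval_eq_sum_range]
    refine Subalgebra.sum_mem _ fun i _ => Subalgebra.mul_mem _ ?_ (Subalgebra.pow_mem _ hx i)
    rw [Polynomial.coeff_map]
    exact ((Polynomial.derivative q).coeff i).2.1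
  have hev : algebraMap (cst O J) K (p.eval (algebraMap k (cst O J) c)) = Φ.eval C0 := by
    rw [← hp, Polynomial.eval_map, ← hcc, Polynomial.eval₂_at_apply]
  have hdec : Φ = C (Φ.eval C0) + (X - C C0) * Q := by
    have h2 := congrArg (Polynomial.map (algebraMap (cst O J) K)) hq
    rw [Polynomial.map_sub, Polynomial.map_mul, Polynomial.map_sub, Polynomial.map_X,
      Polynomial.map_C, Polynomial.map_C, hp, hcc, hev] at h2
    rw [← h2]
    ring
  have hC : Φ.eval C0 ∈ cst O J := by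
    rw [← hev]
    exact (p.eval (algebraMap k (cst O J) c)).2
  have hd : Φ.derivative.eval θ = Q.eval θ + (θ - C0) * Q.derivative.eval θ := by
    conv_lhs => rw [hdec]
    rw [Polynomial.derivative_add, Polynomial.derivative_C, zero_add, Polynomial.derivative_mul,
      Polynomial.derivative_X_sub_C, one_mul, Polynomial.eval_add, Polynomial.eval_mul,
      Polynomial.eval_sub, Polynomial.eval_X, Polynomial.eval_C]
  have hQ1 : V.valuation (Q.eval θ) = 1 := by
    have h2 : V.valuation ((θ - C0) * Q.derivative.eval θ) < 1 := by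
      rw [map_mul]
      exact (mul_le_of_le_one_right zero_le
        ((V.valuation_le_one_iff _).2 (hO _ (hQ'O θ hθ)))).trans_lt hc
    have h3 : Q.eval θ = Φ.derivative.eval θ - (θ - C0) * Q.derivative.eval θ := by
      rw [hd]
      ring
    rw [h3, Valuation.map_sub_eq_of_lt_left _ (by rw [h1]; exact h2), h1]
  have hQ0 : Q.eval θ ≠ 0 := by
    intro h
    rw [h, map_zero] at hQ1
    exact zero_ne_one hQ1
  have hroot : Φ.eval C0 + (θ - C0) * Q.eval θ = 0 := by
    have h2 := h0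
    rw [hdec, Polynomial.eval_add, Polynomial.eval_C, Polynomial.eval_mul, Polynomial.eval_sub,
      Polynomial.eval_X, Polynomial.eval_C] at h2
    exact h2
  have hC1 : V.valuation (Φ.eval C0) < 1 := by
    have h2 : Φ.eval C0 = -((θ - C0) * Q.eval θ) := by linear_combination hroot
    rw [h2, Valuation.map_neg, map_mul, hQ1, mul_one]
    exact hc
  have hCJ : Φ.eval C0 ∈ J := mem_of_cst hV hJ hC hC1
  have hQi : (Q.eval θ)⁻¹ ∈ O := hOi _ (hQO θ hθ) hQ1
  refine ⟨hθ, c, ?_⟩
  have h2 : θ - algebraMap k K c = (-⟨(Q.eval θ)⁻¹, hQi⟩ : O) • Φ.eval C0 := by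
    change θ - C0 = -(Q.eval θ)⁻¹ * Φ.eval C0
    field_simp
    linear_combination hroot
  rw [h2]
  exact J.smul_mem _ hCJ

end Cst

/-! ### Cones -/

section Cone

variable {χ : Vec r → K} {e : Module.Basis (Fin r) ℤ (Vec r)}

theorem val_le_of_inCone (h : IsChar χ) (he : ∀ i, V.valuation (χ (e i)) ≤ 1) {g : Vec r}
    (hg : InCone e g) (i : Fin r) : V.valuation (χ g) ≤ V.valuation (χ (e i)) ^ e.repr g i := by
  classical
  rw [h.repr e g, map_prod, ← Finset.mul_prod_erase _ _ (Finset.mem_univ i), map_zpow₀]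
  refine mul_le_of_le_one_right zero_le (Finset.prod_le_one' fun j _ => ?_)
  rw [map_zpow₀]
  obtain ⟨m, hm⟩ := Int.eq_ofNat_of_zero_le (hg j)
  rw [hm, zpow_natCast]
  exact pow_le_one' (he j) m

theorem val_le_one_of_inCone (h : IsChar χ) (he : ∀ i, V.valuation (χ (e i)) ≤ 1) {g : Vec r}
    (hg : InCone e g) : V.valuation (χ g) ≤ 1 := by
  rw [h.repr e g, map_prod]
  refine Finset.prod_le_one' fun j _ => ?_
  rw [map_zpow₀]
  obtain ⟨m, hm⟩ := Int.eq_ofNat_of_zero_le (hg j)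
  rw [hm, zpow_natCast]
  exact pow_le_one' (he j) m

theorem val_lt_of_inCone (h : IsChar χ) (he : ∀ i, V.valuation (χ (e i)) ≤ 1) {g : Vec r}
    (hg : InCone e g) {i : Fin r} (hi : V.valuation (χ (e i)) < 1) (h0 : e.repr g i ≠ 0) :
    V.valuation (χ g) < 1 := by
  refine (val_le_of_inCone h he hg i).trans_lt ?_
  obtain ⟨m, hm⟩ := Int.eq_ofNat_of_zero_le (hg i)
  rw [hm, zpow_natCast]
  refine pow_lt_one₀ zero_le hi ?_
  rintro rfl
  exact h0 hm

/-- A character of value `1` which is comparable with `0`. -/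
theorem repr_eq_zero (h : IsChar χ) (he : ∀ i, V.valuation (χ (e i)) ≤ 1) {g : Vec r}
    (hg : InCone e g ∨ InCone e (-g)) (h1 : V.valuation (χ g) = 1) {i : Fin r}
    (hi : V.valuation (χ (e i)) < 1) : e.repr g i = 0 := by
  by_contra h0
  rcases hg with hg | hg
  · exact absurd h1 (val_lt_of_inCone h he hg hi h0).ne
  · have h2 : V.valuation (χ (-g)) < 1 := by
      refine val_lt_of_inCone h he hg hi ?_
      rw [map_neg, Finsupp.neg_apply, neg_ne_zero]
      exact h0
    rw [h.neg, map_inv₀, h1, inv_one] at h2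
    exact lt_irrefl _ h2

/-- A character of positive value which is comparable with `0`. -/
theorem inCone_of_lt (h : IsChar χ) (he : ∀ i, V.valuation (χ (e i)) ≤ 1) {g : Vec r}
    (hg : InCone e g ∨ InCone e (-g)) (h1 : V.valuation (χ g) < 1) :
    InCone e g ∧ ∃ i, V.valuation (χ (e i)) < 1 ∧ 0 < e.repr g i := by
  have hgc : InCone e g := by
    rcases hg with hg | hg
    · exact hg
    · have h2 := val_le_one_of_inCone h he hg
      rw [h.neg, map_inv₀, inv_le_one₀ ((Valuation.pos_iff _).2 (h.ne g))] at h2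
      exact absurd h1 (not_lt.2 h2)
  refine ⟨hgc, ?_⟩
  by_contra hcon
  push Not at hcon
  rw [h.repr e g, map_prod] at h1
  refine absurd h1 (not_lt.2 (le_of_eq ?_))
  symm
  refine Finset.prod_eq_one fun i _ => ?_
  rw [map_zpow₀]
  rcases (he i).lt_or_eq with hi | hi
  · rw [le_antisymm (hcon i hi) (hgc i), zpow_zero]
  · rw [hi, one_zpow]

/-- The values of a character on the cone, as elements of a ring. -/
theorem mem_of_inCone (h : IsChar χ) {O : Subalgebra k K} (he : ∀ i, χ (e i) ∈ O) {g : Vec r}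
    (hg : InCone e g) : χ g ∈ O := by
  rw [h.repr e g]
  refine O.prod_mem fun i _ => ?_
  obtain ⟨m, hm⟩ := Int.eq_ofNat_of_zero_le (hg i)
  rw [hm, zpow_natCast]
  exact O.pow_mem (he i) m

/-- A character of positive value which is comparable with `0` is in every ideal which contains
the `χ (e i)` of positive value. -/
theorem mem_ideal_of_lt (h : IsChar χ) {O : Subalgebra k K} {J : Submodule O K}
    (hO : ∀ a ∈ O, a ∈ V) (he : ∀ i, χ (e i) ∈ O)
    (hJ : ∀ i, V.valuation (χ (e i)) < 1 → χ (e i) ∈ J) {g : Vec r}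
    (hg : InCone e g ∨ InCone e (-g)) (h1 : V.valuation (χ g) < 1) : χ g ∈ J := by
  have hev : ∀ i, V.valuation (χ (e i)) ≤ 1 := fun i =>
    (V.valuation_le_one_iff _).2 (hO _ (he i))
  obtain ⟨hgc, i, hi, h0⟩ := inCone_of_lt h hev hg h1
  have h2 : InCone e (g - e i) := by
    intro j
    rw [map_sub, Finsupp.sub_apply, e.repr_self]
    by_cases hij : i = j
    · subst hij
      rw [Finsupp.single_eq_same]
      omega
    · rw [Finsupp.single_eq_of_ne (Ne.symm hij), sub_zero]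
      exact hgc j
  have h3 : χ g = χ (g - e i) * χ (e i) := by
    rw [← h.add, sub_add_cancel]
  rw [h3]
  exact J.smul_mem (⟨_, mem_of_inCone h he h2⟩ : O) (hJ i hi)

end Cone

/-! ### The count -/

section Main

variable {A : Subalgebra k K} {n N D : ℕ}

/-- **Regularity by counting.** -/
theorem exists_par (hV : ZDim k V) (hfg : A.FG) (hA : ∀ a ∈ A, a ∈ V)
    (halg : Algebra.IsAlgebraic A K) (hn : Algebra.trdeg k K = n)
    {ψ : Vec N → K} (hψ : IsChar ψ) (e : Module.Basis (Fin N) ℤ (Vec N))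
    (he : ∀ i, ψ (e i) ∈ locV V A) {y : Fin D → K} (hy : ∀ d, y d ∈ locV V A)
    (hyp : ∀ d, V.valuation (y d) < 1) (U : Submodule ℤ (Vec N))
    (hcount : N + D = n + finrank ℤ U)
    (hU1 : ∀ u ∈ U, ∀ i, V.valuation (ψ (e i)) < 1 → e.repr u i = 0)
    (hU2 : ∀ J : Submodule (locV V A) K, (∀ x ∈ J, V.valuation x < 1) → (∀ d, y d ∈ J) →
      (∀ i, V.valuation (ψ (e i)) < 1 → ψ (e i) ∈ J) →
      ∀ u : Vec N, ∀ m : ℤ, m ≠ 0 → m • u ∈ U → ψ u ∈ cst (locV V A) J)
    (hgen : ∀ J : Submodule (locV V A) K, (∀ x ∈ J, V.valuation x < 1) → (∀ d, y d ∈ J) →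
      (∀ i, V.valuation (ψ (e i)) < 1 → ψ (e i) ∈ J) →
      (∀ i, ψ (e i) ∈ cst (locV V A) J) → locV V A ≤ cst (locV V A) J) :
    ∃ t : Fin n → K, IsPar V (locV V A) t ∧ (∀ a, MonoZ V (locV V A) t (ψ a)) ∧
      ∀ a, InCone e a ∨ InCone e (-a) → Mono V (locV V A) t (ψ a) := by
  classical
  set O := locV V A with hOdef
  have hO : ∀ a ∈ O, a ∈ V := locV_mem hA
  have hOi : ∀ a ∈ O, V.valuation a = 1 → a⁻¹ ∈ O := fun _ h h1 => locV_inv h h1
  let S1 : Finset (Fin N) := Finset.univ.filter fun i => V.valuation (ψ (e i)) < 1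
  have hS1 : ∀ i, i ∈ S1 ↔ V.valuation (ψ (e i)) < 1 := by
    intro i
    simp only [S1, Finset.mem_filter, Finset.mem_univ, true_and]
  have hval1 : ∀ i, i ∉ S1 → V.valuation (ψ (e i)) = 1 := fun i hi =>
    le_antisymm ((V.valuation_le_one_iff _).2 (hO _ (he i)))
      (not_lt.1 fun h => hi ((hS1 i).2 h))
  have hzp : ∀ i, i ∉ S1 → ∀ m : ℤ, ψ (e i) ^ m ∈ O := by
    intro i hi m
    cases m with
    | ofNat m => rw [Int.ofNat_eq_natCast, zpow_natCast]; exact O.pow_mem (he i) m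
    | negSucc m =>
      rw [zpow_negSucc, ← inv_pow]
      exact O.pow_mem (hOi _ (he i) (hval1 i hi)) _
  have hUE : U ≤ coo e S1 := fun u hu i hi => hU1 u hu i ((hS1 i).1 hi)
  obtain ⟨l, b, hb, hdec, hl⟩ := exists_compl (coo e S1) U hUE
  have hE : ∀ a ∈ coo e S1, ψ a ∈ O ∧ V.valuation (ψ a) = 1 := by
    intro a ha
    have hfac : ∀ i, ψ (e i) ^ e.repr a i ∈ O ∧ V.valuation (ψ (e i) ^ e.repr a i) = 1 := by
      intro i
      by_cases hi : i ∈ S1
      · rw [ha i hi, zpow_zero]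
        exact ⟨O.one_mem, map_one _⟩
      · refine ⟨hzp i hi _, ?_⟩
        rw [map_zpow₀, hval1 i hi, one_zpow]
    rw [hψ.repr e a]
    refine ⟨O.prod_mem fun i _ => (hfac i).1, ?_⟩
    rw [map_prod]
    exact Finset.prod_eq_one fun i _ => (hfac i).2
  choose c hc using fun j => hV.res (ψ (b j)) (hO _ (hE _ (hb j)).1)
  let t0 : (S1 ⊕ Fin l) ⊕ Fin D → K :=
    Sum.elim (Sum.elim (fun i => ψ (e i)) fun j => ψ (b j) - algebraMap k K (c j)) y
  have hcard : Fintype.card ((S1 ⊕ Fin l) ⊕ Fin D) = n := by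
    rw [Fintype.card_sum, Fintype.card_sum, Fintype.card_coe, Fintype.card_fin, Fintype.card_fin]
    have := finrank_coo e S1
    omega
  let ε : (S1 ⊕ Fin l) ⊕ Fin D ≃ Fin n := Fintype.equivFinOfCardEq hcard
  let t : Fin n → K := fun i => t0 (ε.symm i)
  have ht0 : ∀ i, t0 i ∈ O ∧ V.valuation (t0 i) < 1 := by
    rintro ((i | j) | d)
    · exact ⟨he i, (hS1 i).1 i.2⟩
    · exact ⟨O.sub_mem (hE _ (hb j)).1 (O.algebraMap_mem _), hc j⟩
    · exact ⟨hy d, hyp d⟩
  let J : Submodule O K := Submodule.span O (Set.range t)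
  have htJ : ∀ i, t0 i ∈ J := fun i => Submodule.subset_span ⟨ε i, by
    change t0 (ε.symm (ε i)) = t0 i
    rw [Equiv.symm_apply_apply]⟩
  have hJ : ∀ x ∈ J, V.valuation x < 1 := by
    intro x hx
    induction hx using Submodule.span_induction with
    | mem x hx => obtain ⟨i, rfl⟩ := hx; exact (ht0 _).2
    | zero => rw [map_zero]; exact zero_lt_one
    | add x y _ _ hx hy => exact Valuation.map_add_lt _ hx hy
    | smul a x _ hx =>
      change V.valuation ((a : K) * x) < 1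
      rw [map_mul]
      exact (mul_le_of_le_one_left zero_le
        ((V.valuation_le_one_iff _).2 (hO a a.2))).trans_lt hx
  have hyJ : ∀ d, y d ∈ J := fun d => htJ (Sum.inr d)
  have heJ : ∀ i, V.valuation (ψ (e i)) < 1 → ψ (e i) ∈ J := fun i hi =>
    htJ (Sum.inl (Sum.inl ⟨i, (hS1 i).2 hi⟩))
  have hbc : ∀ j, ψ (b j) ∈ cst O J := fun j =>
    ⟨(hE _ (hb j)).1, c j, htJ (Sum.inl (Sum.inr j))⟩
  have hec : ∀ i, ψ (e i) ∈ cst O J := by
    intro i
    by_cases hi : i ∈ S1
    · exact mem_cst_of_mem (he i) (heJ i ((hS1 i).1 hi))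
    · have hiE : e i ∈ coo e S1 := by
        intro j hj
        rw [e.repr_self, Finsupp.single_eq_of_ne]
        rintro rfl
        exact hi hj
      obtain ⟨u, hu, ⟨m, hm, hmu⟩, d, hd⟩ := hdec _ hiE
      rw [hd, hψ.add, hψ.sum]
      refine Subalgebra.mul_mem _ (hU2 J hJ hyJ heJ u m hm hmu)
        (Subalgebra.prod_mem _ fun j _ => ?_)
      rw [hψ.zsmul]
      exact cst_zpow hJ (hbc j) (hE _ (hb j)).2 (hOi _ (hE _ (hb j)).1 (hE _ (hb j)).2) _
  have hall := hgen J hJ hyJ heJ hec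
  have hpar : IsPar V O t := isPar_of_gen hV hfg hA halg hn (fun i => (ht0 _).1)
    (fun i => (ht0 _).2) fun f hf h1 => mem_of_cst hV.ov hJ (hall hf) h1
  have hform : ∀ a, ∃ E : Fin n → ℤ, (InCone e a → ∀ i, 0 ≤ E i) ∧
      ∃ w ∈ O, V.valuation w = 1 ∧ ψ a = (∏ i, t i ^ E i) * w := by
    intro a
    let E0 : (S1 ⊕ Fin l) ⊕ Fin D → ℤ :=
      Sum.elim (Sum.elim (fun i => e.repr a i) fun _ => 0) fun _ => 0
    have hE0 : InCone e a → ∀ j, 0 ≤ E0 j := by
      rintro hcone ((i | j) | d)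
      · exact hcone i
      · exact le_refl 0
      · exact le_refl 0
    refine ⟨fun i => E0 (ε.symm i), fun h i => hE0 h _, ∏ i ∈ S1ᶜ, ψ (e i) ^ e.repr a i,
      O.prod_mem fun i hi => hzp i (Finset.mem_compl.1 hi) _, ?_, ?_⟩
    · rw [map_prod]
      refine Finset.prod_eq_one fun i hi => ?_
      rw [map_zpow₀, hval1 i (Finset.mem_compl.1 hi), one_zpow]
    · have h1 : ∏ i, t i ^ E0 (ε.symm i) = ∏ i, t0 i ^ E0 i :=
        Equiv.prod_comp ε.symm fun i => t0 i ^ E0 i
      rw [h1, Fintype.prod_sum_type, Fintype.prod_sum_type]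
      simp only [t0, E0, Sum.elim_inl, Sum.elim_inr, zpow_zero, Finset.prod_const_one, mul_one]
      rw [hψ.repr e a, ← Finset.prod_mul_prod_compl S1 (fun i => ψ (e i) ^ e.repr a i),
        Finset.prod_coe_sort S1 (fun i => ψ (e i) ^ e.repr a i)]
  have hcone : ∀ a, InCone e a → Mono V O t (ψ a) := by
    intro a ha
    obtain ⟨E, hE, w, hw, hw1, hEq⟩ := hform a
    rw [hEq]
    exact mono_of_nonneg hpar.pos (hE ha) hw hw1
  refine ⟨t, hpar, fun a => ?_, ?_⟩
  · obtain ⟨E, -, w, hw, hw1, hEq⟩ := hform a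
    exact ⟨E, w, hw, hw1, hEq⟩
  · rintro a (ha | ha)
    · exact hcone a ha
    · have h1 := Mono.inv hOi (hcone _ ha)
      rwa [hψ.neg, inv_inv] at h1

end Main

end Pool.Agent.TG.Cnt
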