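import Pool.Agent.Lib.TG.Count

/-!
# TANK G: the toric step at one valuation ring
-/

set_option autoImplicit false

namespace Pool.Agent.TG.Cnt

open Pool.Agent.GR (Vec InCone)
open Pool.Agent.LU2 (locV IsPar Mono le_locV locV_mono locV_le locV_inv locV_mem locV_locV)
open Module (finrank)

universe u

variable {k K : Type u} [Field k] [Field K] [Algebra k K] {V : ValuationSubring K} {N D n : ℕ}

/-- The ring generated by the values of `ψ` at the differences `a - a₀` of a set `A` which contains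
`a₀ + e i` and with `A - a₀` in the cone of `e`. -/
theorem adjoin_cone_eq {ψ : Vec N → K} (hψ : IsChar ψ) {e : Module.Basis (Fin N) ℤ (Vec N)}
    {A : Set (Vec N)} {a₀ : Vec N} (h1 : ∀ i, a₀ + e i ∈ A) (h2 : ∀ a ∈ A, InCone e (a - a₀)) :
    Algebra.adjoin k {x | ∃ a ∈ A, x = ψ (a - a₀)} =
      Algebra.adjoin k (Set.range fun i => ψ (e i)) := by
  refine le_antisymm (Algebra.adjoin_le ?_) (Algebra.adjoin_le ?_)
  · rintro _ ⟨a, ha, rfl⟩
    exact mem_of_inCone hψ (fun i => Algebra.subset_adjoin (Set.mem_range_self i)) (h2 a ha)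
  · rintro _ ⟨i, rfl⟩
    refine Algebra.subset_adjoin ⟨_, h1 i, ?_⟩
    rw [add_sub_cancel_left]

theorem fg_sup_range {ψ : Vec N → K} (e : Module.Basis (Fin N) ℤ (Vec N)) {A₀ : Subalgebra k K}
    (h : A₀.FG) : (A₀ ⊔ Algebra.adjoin k (Set.range fun i => ψ (e i))).FG :=
  h.sup (Subalgebra.fg_def.2 ⟨_, Set.finite_range _, rfl⟩)

theorem sup_range_le (hV : Ov k V) {ψ : Vec N → K} {e : Module.Basis (Fin N) ℤ (Vec N)}
    {A₀ : Subalgebra k K} (hA : ∀ a ∈ A₀, a ∈ V) (he : ∀ i, ψ (e i) ∈ V) :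
    ∀ a ∈ A₀ ⊔ Algebra.adjoin k (Set.range fun i => ψ (e i)), a ∈ V := by
  have h1 : A₀ ⊔ Algebra.adjoin k (Set.range fun i => ψ (e i)) ≤ valg hV := by
    refine sup_le (fun a ha => hA a ha) (Algebra.adjoin_le ?_)
    rintro _ ⟨i, rfl⟩
    exact he i
  exact fun a ha => h1 ha

theorem isAlgebraic_of_le {A B : Subalgebra k K} (h : A ≤ B) (hA : Algebra.IsAlgebraic A K) :
    Algebra.IsAlgebraic B K := by
  refine ⟨fun x => ?_⟩
  obtain ⟨p, hp, hpx⟩ := hA.isAlgebraic x
  refine ⟨p.map (Subalgebra.inclusion h).toRingHom, ?_, ?_⟩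
  · rwa [Polynomial.map_ne_zero_iff (Subalgebra.inclusion_injective h)]
  · rw [Polynomial.aeval_def, Polynomial.eval₂_map]
    exact hpx

theorem locV_closed (A : Subalgebra k K) : ∀ f ∈ locV V A, V.valuation f = 1 → f⁻¹ ∈ locV V A :=
  fun _ h h1 => locV_inv h h1

/-- The elements of a local ring whose maximal ideal is generated by elements of `J` are constant
modulo `J`. -/
theorem le_cst (hV : ZDim k V) {O O' : Subalgebra k K} (hOO : O ≤ O') (hO : ∀ a ∈ O, a ∈ V)
    {S : Set K} (hgen : ∀ f ∈ O, V.valuation f < 1 → f ∈ Submodule.span O S)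
    {J : Submodule O' K} (hS : ∀ s ∈ S, s ∈ J) : O ≤ cst O' J := by
  intro f hf
  obtain ⟨c, hc⟩ := hV.res f (hO f hf)
  refine ⟨hOO hf, c, ?_⟩
  have h1 := hgen _ (O.sub_mem hf (O.algebraMap_mem c)) hc
  clear hc
  generalize f - algebraMap k K c = x at h1
  induction h1 using Submodule.span_induction with
  | mem x hx => exact hS x hx
  | zero => exact J.zero_mem
  | add x y _ _ hx hy => exact J.add_mem hx hy
  | smul a x _ hx => exact J.smul_mem (⟨(a : K), hOO a.2⟩ : O') hx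

/-- **The toric step.**  `O = locV V A₀` is toric at `V` for `ψ` and `G`: its maximal ideal is
generated by the `ψ g` of positive value, `g ∈ G`, and by `y 1, .., y D`; `U` is a group of rank
`N + D - n`, generated by elements of `G`, and `ψ` is a unit of `O` on it and on its saturation.
Then the local ring generated by `O` and the values of `ψ` at a basis `e` of `ℤ^N` for which every
element of `G` is in the cone of `e` or in its opposite is regular. -/
theorem exists_par_tor (hV : ZDim k V) {A₀ : Subalgebra k K} (hfg : A₀.FG)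
    (hA : ∀ a ∈ A₀, a ∈ V) (halg : Algebra.IsAlgebraic A₀ K) (hn : Algebra.trdeg k K = n)
    {ψ : Vec N → K} (hψ : IsChar ψ) {G : Set (Vec N)} {y : Fin D → K}
    (hy : ∀ d, y d ∈ locV V A₀) (hyp : ∀ d, V.valuation (y d) < 1)
    (hgen : ∀ f ∈ locV V A₀, V.valuation f < 1 → f ∈ Submodule.span (locV V A₀)
      ({x | ∃ g ∈ G, V.valuation (ψ g) < 1 ∧ x = ψ g} ∪ Set.range y))
    {U : Submodule ℤ (Vec N)} (hcount : N + D = n + finrank ℤ U)
    (hUG : U ≤ Submodule.span ℤ {g | g ∈ G ∧ g ∈ U}) (hU1 : ∀ u ∈ U, V.valuation (ψ u) = 1)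
    (hsat : ∀ u : Vec N, ∀ m : ℤ, m ≠ 0 → m • u ∈ U → ψ u ∈ locV V A₀)
    {e : Module.Basis (Fin N) ℤ (Vec N)} (he : ∀ i, ψ (e i) ∈ V)
    (hG : ∀ g ∈ G, InCone e g ∨ InCone e (-g)) :
    ∃ t : Fin n → K,
      IsPar V (locV V (A₀ ⊔ Algebra.adjoin k (Set.range fun i => ψ (e i)))) t ∧
      (∀ a, MonoZ V (locV V (A₀ ⊔ Algebra.adjoin k (Set.range fun i => ψ (e i)))) t (ψ a)) ∧
      ∀ a, InCone e a ∨ InCone e (-a) →
        Mono V (locV V (A₀ ⊔ Algebra.adjoin k (Set.range fun i => ψ (e i)))) t (ψ a) := by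
  set A := A₀ ⊔ Algebra.adjoin k (Set.range fun i => ψ (e i)) with hAdef
  have hA' := sup_range_le hV.ov hA he
  have heA : ∀ i, ψ (e i) ∈ locV V A := fun i =>
    le_locV _ ((le_sup_right : _ ≤ A) (Algebra.subset_adjoin ⟨i, rfl⟩))
  have hev : ∀ i, V.valuation (ψ (e i)) ≤ 1 := fun i => (V.valuation_le_one_iff _).2 (he i)
  have hle : locV V A₀ ≤ locV V A := locV_mono le_sup_left
  have hcst : ∀ J : Submodule (locV V A) K, (∀ d, y d ∈ J) →
      (∀ i, V.valuation (ψ (e i)) < 1 → ψ (e i) ∈ J) → locV V A₀ ≤ cst (locV V A) J := by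
    intro J hyJ heJ
    refine le_cst hV hle (locV_mem hA) hgen ?_
    rintro s (⟨g, hg, h1, rfl⟩ | ⟨d, rfl⟩)
    · exact mem_ideal_of_lt hψ (locV_mem hA') heA heJ (hG g hg) h1
    · exact hyJ d
  refine exists_par hV (fg_sup_range e hfg) hA' (isAlgebraic_of_le le_sup_left halg) hn hψ e heA
    (fun d => hle (hy d)) hyp U hcount ?_ ?_ ?_
  · intro u hu i hi
    have h1 : U ≤ coo e {i} := by
      refine hUG.trans (Submodule.span_le.2 ?_)
      rintro g ⟨hg, hgU⟩ j hj
      rw [Finset.mem_singleton] at hj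
      subst hj
      exact repr_eq_zero hψ hev (hG g hg) (hU1 g hgU) hi
    exact h1 hu i (Finset.mem_singleton_self i)
  · intro J _ hyJ heJ u m hm hmu
    exact hcst J hyJ heJ (hsat u m hm hmu)
  · intro J hJ hyJ heJ hec
    refine locV_le (sup_le ((le_locV _).trans (hcst J hyJ heJ)) (Algebra.adjoin_le ?_)) ?_
    · rintro _ ⟨i, rfl⟩
      exact hec i
    · intro f hf h1
      exact cst_inv hJ hf h1 (locV_inv hf.1 h1)

end Pool.Agent.TG.Cnt
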