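import Pool.Agent.Lib.TG.Defs
import Pool.Agent.Lib.ALL_h26.Sub

/-!
# TANK G, A6 (c): zero-dimensional valuation rings with prescribed centre
-/

set_option autoImplicit false

namespace Pool.Agent.TG

open Pool.Agent.LU2 (locV IsPar Mono)
open Pool.Agent.ALLF (addM le_of_nonunits exists_zeroDim_sub)
open Pool.Agent.ALL68 (mul_lt_one_of_le_of_lt')

universe u

variable {k K : Type u} [Field k] [Field K] [Algebra k K]

/-- Given `A ⊆ V` and a proper ideal `m` of `A` containing the centre of `V`, there is a valuation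
ring `W ⊆ V` containing `A` whose centre contains `m`. -/
theorem exists_le_of_ideal (V : ValuationSubring K) (A : Subalgebra k K) (hA : ∀ a ∈ A, a ∈ V)
    (m : Ideal A) (hm : m ≠ ⊤) (hc : ∀ a : A, V.valuation (a : K) < 1 → a ∈ m) :
    ∃ W : ValuationSubring K, W ≤ V ∧ (∀ a ∈ A, a ∈ W) ∧
      ∀ a ∈ m, W.valuation (a : K) < 1 := by
  let B : Subring K := addM V A hA
  let I : Ideal B :=
    { carrier := {f | ∃ b ∈ m, V.valuation ((f : K) - (b : K)) < 1}
      add_mem' := by
        rintro f g ⟨b, hb, hf⟩ ⟨c, hc, hg⟩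
        refine ⟨b + c, m.add_mem hb hc, ?_⟩
        change V.valuation (((f : K) + (g : K)) - ((b : K) + (c : K))) < 1
        rw [add_sub_add_comm]
        exact Valuation.map_add_lt _ hf hg
      zero_mem' := ⟨0, m.zero_mem, by
        change V.valuation ((0 : K) - (0 : K)) < 1
        rw [sub_zero, map_zero]
        exact zero_lt_one⟩
      smul_mem' := by
        rintro ⟨f, c, hc, hf⟩ g ⟨b, hb, hg⟩
        refine ⟨⟨c, hc⟩ * b, m.mul_mem_left _ hb, ?_⟩
        change V.valuation (f * (g : K) - c * (b : K)) < 1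
        have e : f * (g : K) - c * (b : K) = (f - c) * ((g : K) - (b : K)) +
            (c * ((g : K) - (b : K)) + (b : K) * (f - c)) := by ring
        rw [e]
        refine Valuation.map_add_lt _ ?_ (Valuation.map_add_lt _ ?_ ?_)
        · rw [map_mul]
          exact mul_lt_one_of_lt_of_le hf hg.le
        · rw [map_mul]
          exact mul_lt_one_of_le_of_lt' ((V.valuation_le_one_iff _).2 (hA c hc)) hg
        · rw [map_mul]
          exact mul_lt_one_of_le_of_lt' ((V.valuation_le_one_iff _).2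
            (hA _ b.2)) hf }
  have hI : I ≠ ⊤ := by
    rw [Ne, Ideal.eq_top_iff_one]
    rintro ⟨b, hb, h⟩
    have h1 : (1 - b : A) ∈ m := hc _ h
    have h2 : (1 : A) = (1 - b) + b := by ring
    exact hm ((Ideal.eq_top_iff_one _).2 (h2 ▸ m.add_mem h1 hb))
  obtain ⟨W, hBW, hIW⟩ := Ideal.image_subset_nonunits_valuationSubring I hI
  have hsmall : ∀ x : K, V.valuation x < 1 → x ∈ W.nonunits := by
    intro x hx
    have hxB : x ∈ B := ⟨0, A.zero_mem, by rw [sub_zero]; exact hx⟩
    refine hIW ⟨⟨x, hxB⟩, ⟨0, m.zero_mem, ?_⟩, rfl⟩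
    change V.valuation (x - 0) < 1
    rw [sub_zero]
    exact hx
  refine ⟨W, le_of_nonunits hsmall, fun c hc =>
    hBW ⟨c, hc, by rw [sub_self, map_zero]; exact zero_lt_one⟩, fun a ha => ?_⟩
  have haB : (a : K) ∈ B := ⟨a, a.2, by rw [sub_self, map_zero]; exact zero_lt_one⟩
  refine (ValuationSubring.mem_nonunits_iff (A := W)).1 (hIW ⟨⟨a, haB⟩, ⟨a, ha, ?_⟩, rfl⟩)
  change V.valuation ((a : K) - (a : K)) < 1
  rw [sub_self, map_zero]
  exact zero_lt_one

/-- Zero-dimensional refinements with prescribed centre: `A` is a finitely generated subalgebra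
of `V` and `m` a proper ideal of `A` containing the centre of `V`. -/
theorem exists_zdim_centre [IsAlgClosed k] (V : ValuationSubring K) (A : Subalgebra k K)
    (hfg : A.FG) (hA : ∀ a ∈ A, a ∈ V) (m : Ideal A) (hm : m ≠ ⊤)
    (hc : ∀ a : A, V.valuation (a : K) < 1 → a ∈ m) :
    ∃ W : ValuationSubring K, W ≤ V ∧ ZDim k W ∧ (∀ a ∈ A, a ∈ W) ∧
      ∀ a ∈ m, W.valuation (a : K) < 1 := by
  obtain ⟨W₀, h1, h2, h3⟩ := exists_le_of_ideal V A hA m hm hc
  obtain ⟨W, h4, h5, h6⟩ := exists_zeroDim_sub W₀ A hfg h2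
  exact ⟨W, h4.trans h1, ⟨fun c => h5 _ (A.algebraMap_mem c), h6⟩, h5,
    fun a ha => Pool.Agent.LU2.val_lt_one_of_le h4 (h3 a ha)⟩

/-- The centre of `W` is a maximal ideal contained in it. -/
theorem centre_eq_of_isMaximal (W : ValuationSubring K) (A : Subalgebra k K)
    (hA : ∀ a ∈ A, a ∈ W) (m : Ideal A) (hm : m.IsMaximal)
    (h : ∀ a ∈ m, W.valuation (a : K) < 1) (a : A) : a ∈ m ↔ W.valuation (a : K) < 1 := by
  refine ⟨h a, fun ha => ?_⟩
  by_contra hcon
  obtain ⟨b, c, hc, hbc⟩ := hm.exists_inv hcon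
  have h1 : W.valuation (1 : K) < 1 := by
    have e : (1 : K) = (b : K) * (a : K) + (c : K) := by
      have := congrArg (Subtype.val) hbc
      exact this.symm
    rw [e]
    refine Valuation.map_add_lt _ ?_ (h c hc)
    rw [map_mul]
    exact mul_lt_one_of_le_of_lt' ((W.valuation_le_one_iff _).2 (hA _ b.2)) ha
  rw [map_one] at h1
  exact lt_irrefl _ h1

/-- `A` finitely generated, `m` a maximal ideal: a zero-dimensional valuation ring centred at
`m`. -/
theorem exists_zdim_maximal [IsAlgClosed k] (A : Subalgebra k K) (hfg : A.FG) (m : Ideal A)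
    (hm : m.IsMaximal) :
    ∃ W : ValuationSubring K, ZDim k W ∧ (∀ a ∈ A, a ∈ W) ∧
      ∀ a : A, a ∈ m ↔ W.valuation (a : K) < 1 := by
  obtain ⟨W, _, h2, h3, h4⟩ := exists_zdim_centre (⊤ : ValuationSubring K) A hfg
    (fun a _ => ValuationSubring.mem_top a) m hm.ne_top (fun a ha => by
      have h0 : (a : K) = 0 := by
        by_contra h0
        have h1 : (⊤ : ValuationSubring K).valuation (a : K)⁻¹ ≤ 1 :=
          (ValuationSubring.valuation_le_one_iff _ _).2 (ValuationSubring.mem_top _)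
        have h2 := mul_lt_one_of_le_of_lt' h1 ha
        rw [← map_mul, inv_mul_cancel₀ h0, map_one] at h2
        exact lt_irrefl _ h2
      have h1 : a = 0 := Subtype.ext h0
      rw [h1]
      exact m.zero_mem)
  exact ⟨W, h2, h3, centre_eq_of_isMaximal W A h3 m hm h4⟩

end Pool.Agent.TG
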