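import Pool.Agent.Lib.TG.Basic
import Pool.Agent.Lib.TG.ZDim
import Pool.Agent.Lib.ZRC.Compact

/-!
# TANK G, A7: compactness of the space of the valuation rings `V ⊇ k`
-/

set_option autoImplicit false

namespace Pool.Agent.TG

open Pool.Agent.LU2 (locV IsPar Mono)

universe u

variable {k K : Type u} [Field k] [Field K] [Algebra k K]

theorem ov_iff {V : ValuationSubring K} :
    Ov k V ↔ (Set.range (algebraMap k K) : Set K) ⊆ V :=
  ⟨fun h => by rintro _ ⟨c, rfl⟩; exact h c, fun h c => h ⟨c, rfl⟩⟩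

/-- Compactness, form 1: an open covering of `{V | k ≤ V, B ⊆ V}` has a finite subcovering. -/
theorem cpt_open (k : Type u) {K : Type u} [Field k] [Field K] [Algebra k K] (B : Set K)
    {I : Type*} (U : I → Set (ValuationSubring K))
    (hopen : ∀ i, ∀ V ∈ U i, Ov k V → B ⊆ V → ∃ F : Finset K, (F : Set K) ⊆ V ∧
      ∀ V' : ValuationSubring K, Ov k V' → B ⊆ V' → (F : Set K) ⊆ V' → V' ∈ U i)
    (hcov : ∀ V : ValuationSubring K, Ov k V → B ⊆ V → ∃ i, V ∈ U i) :
    ∃ t : Finset I, ∀ V : ValuationSubring K, Ov k V → B ⊆ V → ∃ i ∈ t, V ∈ U i := by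
  obtain ⟨t, ht⟩ := Pool.Agent.ZRC.zr_compact (Set.range (algebraMap k K) ∪ B) U
    (fun i V hV hA => by
      obtain ⟨F, h1, h2⟩ := hopen i V hV (ov_iff.2 (Set.subset_union_left.trans hA))
        (Set.subset_union_right.trans hA)
      exact ⟨F, h1, fun V' hA' hF => h2 V' (ov_iff.2 (Set.subset_union_left.trans hA'))
        (Set.subset_union_right.trans hA') hF⟩)
    (fun V hA => hcov V (ov_iff.2 (Set.subset_union_left.trans hA))
      (Set.subset_union_right.trans hA))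
  exact ⟨t, fun V hV hB => ht V (Set.union_subset (ov_iff.1 hV) hB)⟩

/-- Compactness, form 2, with data: if near every `V` (i.e. on a set `{V' | F ⊆ V'}` with
`F ⊆ V` finite) some `Q i` holds, then finitely many `i` suffice for all `V`. -/
theorem cpt_data (k : Type u) {K : Type u} [Field k] [Field K] [Algebra k K] (B : Set K)
    {I : Type*} (Q : I → ValuationSubring K → Prop)
    (h : ∀ V : ValuationSubring K, Ov k V → B ⊆ V → ∃ i, ∃ F : Finset K, (F : Set K) ⊆ V ∧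
      ∀ V' : ValuationSubring K, Ov k V' → B ⊆ V' → (F : Set K) ⊆ V' → Q i V') :
    ∃ t : Finset I, ∀ V : ValuationSubring K, Ov k V → B ⊆ V → ∃ i ∈ t, Q i V := by
  classical
  let J := {p : I × Finset K // ∀ V' : ValuationSubring K, Ov k V' → B ⊆ V' →
    (p.2 : Set K) ⊆ V' → Q p.1 V'}
  obtain ⟨t, ht⟩ := cpt_open k B (fun p : J => {V | (p.1.2 : Set K) ⊆ V})
    (fun p V hV _ _ => ⟨p.1.2, hV, fun V' _ _ hF => hF⟩)
    (fun V hV hB => by
      obtain ⟨i, F, h1, h2⟩ := h V hV hB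
      exact ⟨⟨(i, F), h2⟩, h1⟩)
  refine ⟨t.image fun p => p.1.1, fun V hV hB => ?_⟩
  obtain ⟨p, hp, hpV⟩ := ht V hV hB
  exact ⟨p.1.1, Finset.mem_image.2 ⟨p, hp, rfl⟩, p.2 V hV hB hpV⟩

/-- Compactness, form 3: a finite list `F V ⊆ V` of conditions for every `V`: finitely many lists
suffice. -/
theorem cpt_list (k : Type u) {K : Type u} [Field k] [Field K] [Algebra k K]
    (F : ValuationSubring K → Finset K)
    (hF : ∀ V : ValuationSubring K, Ov k V → (F V : Set K) ⊆ V) :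
    ∃ t : Finset (ValuationSubring K), (∀ W ∈ t, Ov k W) ∧
      ∀ V : ValuationSubring K, Ov k V → ∃ W ∈ t, (F W : Set K) ⊆ V := by
  classical
  obtain ⟨t, ht⟩ := cpt_data k (K := K) ∅
    (fun (W : {W : ValuationSubring K // Ov k W}) V => (F W.1 : Set K) ⊆ V)
    (fun V hV _ => ⟨⟨V, hV⟩, F V, hF V hV, fun V' _ _ h => h⟩)
  refine ⟨t.image Subtype.val, fun W hW => ?_, fun V hV => ?_⟩
  · obtain ⟨W', _, rfl⟩ := Finset.mem_image.1 hW
    exact W'.2
  · obtain ⟨W, hW, h1⟩ := ht V hV (Set.empty_subset _)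
    exact ⟨W.1, Finset.mem_image.2 ⟨W, hW, rfl⟩, h1⟩

/-- Below every valuation ring `V ⊇ k` there is one with residue field `k`. -/
theorem zdim_le_of_ov [IsAlgClosed k] (V : ValuationSubring K) (hk : Ov k V) :
    ∃ W : ValuationSubring K, W ≤ V ∧ ZDim k W := by
  obtain ⟨W, h1, h2, h3⟩ := Pool.Agent.ALL68.exists_zeroDim V hk
  exact ⟨W, h1, h2, h3⟩

/-- The same with a finitely generated algebra in the valuation ring. -/
theorem zdim_le_sub [IsAlgClosed k] (V : ValuationSubring K) (A : Subalgebra k K)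
    (hA : A.FG) (h : ∀ a ∈ A, a ∈ V) :
    ∃ W : ValuationSubring K, W ≤ V ∧ ZDim k W ∧ ∀ a ∈ A, a ∈ W := by
  obtain ⟨W, h1, h2, h3⟩ := Pool.Agent.ALLF.exists_zeroDim_sub V A hA h
  exact ⟨W, h1, ⟨fun c => h2 _ (A.algebraMap_mem c), h3⟩, h2⟩

/-- Compactness, form 2 for zero-dimensional valuation rings: if near every `V ⊇ A` with residue
field `k` some `Q i` holds, then finitely many `i` suffice for all `V ⊇ A`. -/
theorem cpt_data_zdim [IsAlgClosed k] (A : Subalgebra k K) (hA : A.FG)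
    {I : Type*} (Q : I → ValuationSubring K → Prop)
    (h : ∀ V : ValuationSubring K, ZDim k V → (A : Set K) ⊆ V → ∃ i, ∃ F : Finset K,
      (F : Set K) ⊆ V ∧
      ∀ V' : ValuationSubring K, Ov k V' → (A : Set K) ⊆ V' → (F : Set K) ⊆ V' → Q i V') :
    ∃ t : Finset I, ∀ V : ValuationSubring K, Ov k V → (A : Set K) ⊆ V → ∃ i ∈ t, Q i V := by
  refine cpt_data k (A : Set K) Q fun V hV hAV => ?_
  obtain ⟨W, h1, h2, h3⟩ := zdim_le_sub V A hA (fun a ha => hAV ha)
  obtain ⟨i, F, h4, h5⟩ := h W h2 (fun a ha => h3 a ha)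
  exact ⟨i, F, fun x hx => h1 (h4 hx), h5⟩

/-- Compactness, form 3 for zero-dimensional valuation rings. -/
theorem cpt_list_zdim [IsAlgClosed k] (F : ValuationSubring K → Finset K)
    (hF : ∀ V : ValuationSubring K, ZDim k V → (F V : Set K) ⊆ V) :
    ∃ t : Finset (ValuationSubring K), (∀ W ∈ t, ZDim k W) ∧
      ∀ V : ValuationSubring K, Ov k V → ∃ W ∈ t, (F W : Set K) ⊆ V := by
  classical
  obtain ⟨t, ht⟩ := cpt_data k (K := K) ∅
    (fun (W : {W : ValuationSubring K // ZDim k W}) V => (F W.1 : Set K) ⊆ V)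
    (fun V hV _ => by
      obtain ⟨W, h1, h2⟩ := zdim_le_of_ov V hV
      exact ⟨⟨W, h2⟩, F W, fun x hx => h1 (hF W h2 hx), fun V' _ _ h => h⟩)
  refine ⟨t.image Subtype.val, fun W hW => ?_, fun V hV => ?_⟩
  · obtain ⟨W', _, rfl⟩ := Finset.mem_image.1 hW
    exact W'.2
  · obtain ⟨W, hW, h1⟩ := ht V hV (Set.empty_subset _)
    exact ⟨W.1, Finset.mem_image.2 ⟨W, hW, rfl⟩, h1⟩

end Pool.Agent.TG
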