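import Pool.Agent.Lib.LU2_h15.Basic

/-!
# TANK G: models as finite dimensional subspaces

`K` is a field over `k`. A model is a nonzero finite dimensional `k`-subspace `P` of `K`; its chart
at `f ∈ P` is `ch P f = k[g / f : g ∈ P]`, the normalised chart is `chN P f` (integral closure in
`K`).  For a valuation ring `V ⊇ k` of `K`, `RV V P` (resp. `NV V P`) is the local ring of the
model (of its normalisation in `K`) at the centre of `V`.
-/

set_option autoImplicit false

namespace Pool.Agent.TG

open Pool.Agent.LU2 (locV IsPar Mono)

universe u

section Defs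

variable {k K : Type u} [Field k] [Field K] [Algebra k K]

/-- `V` contains `k`. -/
def Ov (k : Type u) {K : Type u} [Field k] [Field K] [Algebra k K] (V : ValuationSubring K) :
    Prop := ∀ c : k, algebraMap k K c ∈ V

/-- `V` contains `k` and has residue field `k`. -/
structure ZDim (k : Type u) {K : Type u} [Field k] [Field K] [Algebra k K]
    (V : ValuationSubring K) : Prop where
  ov : Ov k V
  res : ∀ x ∈ V, ∃ c : k, V.valuation (x - algebraMap k K c) < 1

/-- `f` is a nonzero element of `P` of minimal value (`g / f ∈ V` for all `g ∈ P`). -/
structure IsMin (V : ValuationSubring K) (P : Submodule k K) (f : K) : Prop where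
  mem : f ∈ P
  ne : f ≠ 0
  div : ∀ g ∈ P, g / f ∈ V

/-- The chart `k[g / f : g ∈ P]`. -/
def ch (P : Submodule k K) (f : K) : Subalgebra k K :=
  Algebra.adjoin k ((fun g => g / f) '' (P : Set K))

/-- The elements of `K` which are integral over `R`. -/
def ncl (R : Subalgebra k K) : Subalgebra k K where
  carrier := {a | IsIntegral R a}
  mul_mem' := fun ha hb => ha.mul hb
  add_mem' := fun ha hb => ha.add hb
  algebraMap_mem' := fun c => by
    have h : algebraMap k K c = algebraMap R K (algebraMap k R c) := by
      rw [← IsScalarTower.algebraMap_apply]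
    rw [h]
    exact isIntegral_algebraMap

/-- The normalised chart. -/
def chN (P : Submodule k K) (f : K) : Subalgebra k K := ncl (ch P f)

/-- All ratios `g / f`, `g ∈ P`, `f` minimal. -/
def rat (V : ValuationSubring K) (P : Submodule k K) : Subalgebra k K :=
  Algebra.adjoin k {x | ∃ f g, IsMin V P f ∧ g ∈ P ∧ x = g / f}

/-- The local ring of the model `P` at the centre of `V`. -/
def RV (V : ValuationSubring K) (P : Submodule k K) : Subalgebra k K := locV V (rat V P)

/-- The local ring of the normalisation in `K` of the model `P` at the centre of `V`. -/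
def NV (V : ValuationSubring K) (P : Submodule k K) : Subalgebra k K := locV V (ncl (RV V P))

/-- `P` is a model: finite dimensional and nonzero. -/
structure IsModel (P : Submodule k K) : Prop where
  fg : P.FG
  ne : P ≠ ⊥

/-- The model is birational: the ratios of the elements of `P` generate the field `K`. -/
def Bir (P : Submodule k K) : Prop :=
  IntermediateField.adjoin k {x : K | ∃ f ∈ P, ∃ g ∈ P, x = g / f} = ⊤

/-- The model is finite: `K` is algebraic over the field of the ratios of the elements of `P`. -/
def Fin' (P : Submodule k K) : Prop :=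
  Algebra.IsAlgebraic (IntermediateField.adjoin k {x : K | ∃ f ∈ P, ∃ g ∈ P, x = g / f}) K

/-- The model `Q` dominates the model `P`. -/
def Dom (P Q : Submodule k K) : Prop := ∀ V : ValuationSubring K, Ov k V → RV V P ≤ RV V Q

/-- `R` (a local ring dominated by `V`) is regular with regular parameters `t 0, .., t (n - 1)`,
and it is a localisation of a finitely generated algebra with field of fractions `K`. -/
structure RegAt (V : ValuationSubring K) (R : Subalgebra k K) {n : ℕ} (t : Fin n → K) : Prop where
  par : IsPar V R t
  fg : ∃ A : Subalgebra k K, A.FG ∧ R = locV V A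
  frac : ∀ f : K, ∃ a ∈ R, ∃ b ∈ R, b ≠ 0 ∧ f = a / b

/-- `P` is regular and every `z ∈ Z` is, up to a unit, a monomial in suitable regular parameters
with exponents of one sign, everywhere. -/
def LogReg (n : ℕ) (P : Submodule k K) (Z : Set K) : Prop :=
  ∀ V : ValuationSubring K, ZDim k V → ∃ t : Fin n → K, RegAt V (RV V P) t ∧
    ∀ z ∈ Z, Mono V (RV V P) t z

/-- The statement `[n]` over the field `k`: log resolution of all function fields of transcendence
degree `n`, with domination of a given model. -/
def WL (k : Type u) [Field k] (n : ℕ) : Prop :=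
  ∀ (K : Type u) [Field K] [Algebra k K], (⊤ : IntermediateField k K).FG →
    Algebra.trdeg k K = n → ∀ P₀ : Submodule k K, IsModel P₀ → ∀ Z : Finset K,
      (∀ z ∈ Z, z ≠ 0) → ∃ P : Submodule k K, IsModel P ∧ Dom P₀ P ∧ LogReg n P (Z : Set K)

end Defs

end Pool.Agent.TG
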