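import Pool.Agent.Lib.TG.Basic
import Pool.Agent.Lib.LU1_h15.Reg

/-!
# TANK G: dimension of the local rings at zero-dimensional valuation rings

`n` elements which generate the maximal ideal are regular parameters (in particular `≠ 0`).
-/

set_option autoImplicit false

namespace Pool.Agent.TG.Cnt

open Pool.Agent.LU2 (locV IsPar Mono le_locV locV_mono locV_le locV_inv locV_mem locV_locV)

universe u

variable {k K : Type u} [Field k] [Field K] [Algebra k K] {V : ValuationSubring K}

section Loc

variable {R : Subalgebra k K}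

theorem isUnit_iff_val (hR : ∀ a ∈ R, a ∈ V) (hi : ∀ f ∈ R, V.valuation f = 1 → f⁻¹ ∈ R)
    (z : R) : IsUnit z ↔ V.valuation (z : K) = 1 := by
  constructor
  · intro hz
    obtain ⟨w, hw⟩ := hz.exists_right_inv
    have h1 : (z : K) * w = 1 := congrArg (fun t : R => (t : K)) hw
    have h2 : V.valuation (z : K) * V.valuation (w : K) = 1 := by rw [← map_mul, h1, map_one]
    have h3 : V.valuation (z : K) ≤ 1 := (V.valuation_le_one_iff _).2 (hR z z.2)
    have h4 : V.valuation (w : K) ≤ 1 := (V.valuation_le_one_iff _).2 (hR w w.2)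
    refine le_antisymm h3 ?_
    by_contra h5
    have h6 := mul_lt_of_lt_of_le_one (not_le.1 h5) h4
    rw [h2] at h6
    exact lt_irrefl _ h6
  · intro h1
    have h0 : (z : K) ≠ 0 := by
      intro h0
      rw [h0, map_zero] at h1
      exact zero_ne_one h1
    refine IsUnit.of_mul_eq_one ⟨(z : K)⁻¹, hi z z.2 h1⟩ ?_
    apply Subtype.ext
    exact mul_inv_cancel₀ h0

theorem nonunit_iff_val (hR : ∀ a ∈ R, a ∈ V) (hi : ∀ f ∈ R, V.valuation f = 1 → f⁻¹ ∈ R)
    (z : R) : z ∈ nonunits R ↔ V.valuation (z : K) < 1 := by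
  rw [mem_nonunits_iff, isUnit_iff_val hR hi]
  exact ⟨fun h => lt_of_le_of_ne ((V.valuation_le_one_iff _).2 (hR z z.2)) h, fun h => h.ne⟩

theorem isLocalRing_of_val (hR : ∀ a ∈ R, a ∈ V) (hi : ∀ f ∈ R, V.valuation f = 1 → f⁻¹ ∈ R) :
    IsLocalRing R := by
  refine IsLocalRing.of_nonunits_add fun a b ha hb => ?_
  rw [nonunit_iff_val hR hi] at ha hb ⊢
  exact Valuation.map_add_lt _ ha hb

end Loc

/-- The centre of `V` in `A`. -/
def cen (A : Subalgebra k K) (hA : ∀ a ∈ A, a ∈ V) : Ideal A where
  carrier := {a | V.valuation (a : K) < 1}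
  add_mem' := by
    intro a b ha hb
    change V.valuation ((a : K) + (b : K)) < 1
    exact Valuation.map_add_lt _ ha hb
  zero_mem' := by
    change V.valuation (0 : K) < 1
    rw [map_zero]
    exact zero_lt_one
  smul_mem' := by
    intro c a ha
    change V.valuation ((c : K) * (a : K)) < 1
    change V.valuation (a : K) < 1 at ha
    rw [map_mul]
    exact (mul_le_of_le_one_left zero_le ((V.valuation_le_one_iff _).2 (hA c c.2))).trans_lt ha

theorem mem_cen {A : Subalgebra k K} {hA : ∀ a ∈ A, a ∈ V} {a : A} :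
    a ∈ cen A hA ↔ V.valuation (a : K) < 1 := Iff.rfl

theorem cen_isMaximal (hV : ZDim k V) (A : Subalgebra k K) (hA : ∀ a ∈ A, a ∈ V) :
    (cen A hA).IsMaximal := by
  rw [Ideal.isMaximal_iff]
  refine ⟨fun h1 => ?_, fun J x hJ hx hxJ => ?_⟩
  · rw [mem_cen] at h1
    have h2 : ((1 : A) : K) = 1 := rfl
    rw [h2, map_one] at h1
    exact lt_irrefl _ h1
  · obtain ⟨c, hc⟩ := hV.res x (hA x x.2)
    have hxc : x - algebraMap k A c ∈ cen A hA := hc
    have hc0 : c ≠ 0 := by
      rintro rfl
      rw [map_zero, sub_zero] at hxc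
      exact hx hxc
    have h2 : algebraMap k A c ∈ J := by
      have h3 := J.sub_mem hxJ (hJ hxc)
      rwa [sub_sub_cancel] at h3
    have h4 := J.mul_mem_left (algebraMap k A c⁻¹) h2
    rwa [← map_mul, inv_mul_cancel₀ hc0, map_one] at h4

/-- `locV V A` as an algebra over `A`. -/
@[reducible] def algLoc (A : Subalgebra k K) : Algebra A (locV V A) :=
  (Subalgebra.inclusion (le_locV A)).toRingHom.toAlgebra

theorem isLocalization_cen (A : Subalgebra k K) (hA : ∀ a ∈ A, a ∈ V)
    [hp : (cen A hA).IsPrime] :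
    let _ := algLoc (V := V) A
    IsLocalization.AtPrime (locV V A) (cen A hA) := by
  let _ := algLoc (V := V) A
  rw [IsLocalization.AtPrime, isLocalization_iff]
  refine ⟨?_, ?_, ?_⟩
  · rintro ⟨y, hy⟩
    have hyv : V.valuation (y : K) = 1 := by
      by_contra h1
      exact hy (lt_of_le_of_ne ((V.valuation_le_one_iff _).2 (hA y y.2)) h1)
    have hy0 : (y : K) ≠ 0 := by
      intro h0
      rw [h0, map_zero] at hyv
      exact zero_ne_one hyv
    refine IsUnit.of_mul_eq_one ⟨(y : K)⁻¹, locV_inv (le_locV A y.2) hyv⟩ ?_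
    apply Subtype.ext
    exact mul_inv_cancel₀ hy0
  · rintro ⟨z, hz⟩
    obtain ⟨a, ha, b, hb, hvb, hab⟩ := hz
    refine ⟨(⟨a, ha⟩, ⟨⟨b, hb⟩, ?_⟩), ?_⟩
    · intro h1
      rw [SetLike.mem_coe, mem_cen] at h1
      change V.valuation b < 1 at h1
      rw [hvb] at h1
      exact lt_irrefl _ h1
    · apply Subtype.ext
      change z * b = a
      have hb0 : b ≠ 0 := by
        rintro rfl
        rw [map_zero] at hvb
        exact zero_ne_one hvb
      rw [hab, div_mul_cancel₀ _ hb0]
  · intro x y hxy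
    refine ⟨1, ?_⟩
    have h1 : (x : K) = y := congrArg (fun t : locV V A => (t : K)) hxy
    rw [Subtype.ext h1]

theorem isNoetherian_locV (hV : ZDim k V) {A : Subalgebra k K} (hfg : A.FG)
    (hA : ∀ a ∈ A, a ∈ V) : IsNoetherianRing (locV V A) := by
  let _ := algLoc (V := V) A
  have hp := (cen_isMaximal hV A hA).isPrime
  have h1 := isLocalization_cen (V := V) A hA
  have hft : Algebra.FiniteType k A := (Subalgebra.fg_iff_finiteType _).1 hfg
  have h2 : IsNoetherianRing A := Algebra.FiniteType.isNoetherianRing k A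
  exact IsLocalization.isNoetherianRing (cen A hA).primeCompl (locV V A) h2

/-- The dimension of the local ring is at least the transcendence degree. -/
theorem le_ringKrullDim_locV (hV : ZDim k V) {A : Subalgebra k K} (hfg : A.FG)
    (hA : ∀ a ∈ A, a ∈ V) (halg : Algebra.IsAlgebraic A K) {n : ℕ}
    (hn : Algebra.trdeg k K = n) : (n : WithBot ℕ∞) ≤ ringKrullDim (locV V A) := by
  let _ := algLoc (V := V) A
  have hpm := cen_isMaximal hV A hA
  have hp := hpm.isPrime
  have h1 := isLocalization_cen (V := V) A hA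
  have hft : Algebra.FiniteType k A := (Subalgebra.fg_iff_finiteType _).1 hfg
  have h2 := Pool.Agent.LU1.RegAux.le_height (A := A) n hn (cen A hA) hpm
  rw [IsLocalization.AtPrime.ringKrullDim_eq_height (cen A hA) (locV V A)]
  exact_mod_cast h2

/-- `n` generators of the maximal ideal are regular parameters. -/
theorem isPar_of_gen (hV : ZDim k V) {A : Subalgebra k K} (hfg : A.FG)
    (hA : ∀ a ∈ A, a ∈ V) (halg : Algebra.IsAlgebraic A K) {n : ℕ}
    (hn : Algebra.trdeg k K = n) {z : Fin n → K} (hz : ∀ i, z i ∈ locV V A)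
    (hpos : ∀ i, V.valuation (z i) < 1)
    (hgen : ∀ f ∈ locV V A, V.valuation f < 1 →
      f ∈ Submodule.span (locV V A) (Set.range z)) : IsPar V (locV V A) z := by
  classical
  have hR : ∀ a ∈ locV V A, a ∈ V := locV_mem hA
  have hi : ∀ f ∈ locV V A, V.valuation f = 1 → f⁻¹ ∈ locV V A := fun _ h h1 => locV_inv h h1
  have hloc := isLocalRing_of_val hR hi
  have hnoe := isNoetherian_locV hV hfg hA
  have hdim := le_ringKrullDim_locV hV hfg hA halg hn
  let zz : Fin n → locV V A := fun i => ⟨z i, hz i⟩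
  have hsp : ∀ f : locV V A, V.valuation (f : K) < 1 → ∀ s : Set (Fin n), (∀ i ∉ s, z i = 0) →
      f ∈ Ideal.span (zz '' s) := by
    intro f hf s hs
    obtain ⟨c, hc⟩ := (Submodule.mem_span_range_iff_exists_fun _).1 (hgen f f.2 hf)
    have h1 : f = ∑ i, c i * zz i := by
      apply Subtype.ext
      rw [← hc]
      push_cast
      rfl
    rw [h1]
    refine Ideal.sum_mem _ fun i _ => ?_
    by_cases his : i ∈ s
    · exact Ideal.mul_mem_left _ _ (Ideal.subset_span ⟨i, his, rfl⟩)
    · have h2 : zz i = 0 := Subtype.ext (hs i his)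
      rw [h2, mul_zero]
      exact Ideal.zero_mem _
  have hmax : ∀ s : Set (Fin n), (∀ i ∉ s, z i = 0) →
      IsLocalRing.maximalIdeal (locV V A) = Ideal.span (zz '' s) := by
    intro s hs
    apply le_antisymm
    · intro f hf
      rw [IsLocalRing.mem_maximalIdeal, nonunit_iff_val hR hi] at hf
      exact hsp f hf s hs
    · rw [Ideal.span_le]
      rintro _ ⟨i, -, rfl⟩
      rw [SetLike.mem_coe, IsLocalRing.mem_maximalIdeal, nonunit_iff_val hR hi]
      exact hpos i
  have hrank : ∀ s : Set (Fin n), (∀ i ∉ s, z i = 0) → n ≤ s.ncard := by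
    intro s hs
    have h1 := ringKrullDim_le_spanFinrank_maximalIdeal (locV V A)
    have h2 : (IsLocalRing.maximalIdeal (locV V A)).spanFinrank ≤ s.ncard := by
      rw [hmax s hs]
      exact (Submodule.spanFinrank_span_le_ncard_of_finite ((Set.toFinite s).image _)).trans
        (Set.ncard_image_le (Set.toFinite s))
    have h3 := hdim.trans h1
    have h4 : n ≤ (IsLocalRing.maximalIdeal (locV V A)).spanFinrank := by exact_mod_cast h3
    exact h4.trans h2
  refine ⟨hz, fun i h0 => ?_, hpos, fun f hf h1 => ?_, ?_⟩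
  · have h1 := hrank {j | j ≠ i} (fun j hj => by
      have : j = i := by simpa using hj
      rw [this, h0])
    have h2 : ({j | j ≠ i} : Set (Fin n)).ncard < (Set.univ : Set (Fin n)).ncard :=
      Set.ncard_lt_ncard ⟨Set.subset_univ _, fun h => (h (Set.mem_univ i)) rfl⟩ (Set.toFinite _)
    rw [Set.ncard_univ, Nat.card_fin] at h2
    omega
  · obtain ⟨c, hc⟩ := (Submodule.mem_span_range_iff_exists_fun _).1 (hgen f hf h1)
    exact ⟨fun i => c i, fun i => (c i).2, hc.symm⟩
  · apply le_antisymm
    · refine (ringKrullDim_le_spanFinrank_maximalIdeal (locV V A)).trans ?_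
      have h2 : (IsLocalRing.maximalIdeal (locV V A)).spanFinrank ≤ n := by
        rw [hmax Set.univ (by simp)]
        refine (Submodule.spanFinrank_span_le_ncard_of_finite ((Set.toFinite _).image _)).trans
          ((Set.ncard_image_le (Set.toFinite _)).trans ?_)
        rw [Set.ncard_univ, Nat.card_fin]
      exact_mod_cast h2
    · exact hdim

end Pool.Agent.TG.Cnt
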