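import Mathlib

/-!
# TANK G, section C: the local degree is bounded by a length

`N / F` finite Galois group `G`, `D ≤ G` stabilises a ring `C` with quotient field `N`, `O ⊆ C` a
`k`-algebra whose pointwise stabiliser is `H`, `h_i ∈ O` fixed by `D`, `⋂ (h)^M C = 0`.
Then `[D : D ∩ H] ≤ dim_k O / (h) O`.
-/

set_option autoImplicit false

namespace Pool.Agent.TG

open Module

section LocDeg

variable {k F N : Type*} [Field k] [Field F] [Field N] [Algebra k F] [Algebra F N] [Algebra k N]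
  [IsScalarTower k F N]

/-- Common denominators. -/
theorem exists_common_den {Q : Type*} [Fintype Q] (C : Subring N)
    (hfrac : ∀ a : N, ∃ s ∈ C, s ≠ 0 ∧ s * a ∈ C) (lam : Q → N) :
    ∃ s ∈ C, s ≠ 0 ∧ ∀ q, s * lam q ∈ C := by
  classical
  choose s hs hs0 hsl using fun q => hfrac (lam q)
  refine ⟨∏ q, s q, Subring.prod_mem _ fun q _ => hs q,
    Finset.prod_ne_zero_iff.2 fun q _ => hs0 q, fun q => ?_⟩
  rw [← Finset.prod_erase_mul _ _ (Finset.mem_univ q), mul_assoc]
  exact C.mul_mem (Subring.prod_mem _ fun q _ => hs q) (hsl q)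

/-- **The local degree is at most the length.** -/
theorem relIndex_le_finrank (D H : Subgroup (N ≃ₐ[F] N)) [Finite (N ≃ₐ[F] N)] (C : Subring N)
    (hDC : ∀ σ ∈ D, ∀ c ∈ C, σ c ∈ C) (hfrac : ∀ a : N, ∃ s ∈ C, s ≠ 0 ∧ s * a ∈ C)
    (O : Subalgebra k N) (hOC : ∀ g ∈ O, g ∈ C) (_hHO : ∀ σ ∈ H, ∀ g ∈ O, σ g = g)
    (hsep : ∀ σ ∈ D, (∀ g ∈ O, σ g = g) → σ ∈ H) {ι : Type*} [Fintype ι] (h : ι → N)
    (hh : ∀ i, h i ∈ O) (hfix : ∀ σ ∈ D, ∀ i, σ (h i) = h i)
    (hkrull : ∀ a : C, (∀ M : ℕ, a ∈ Ideal.span (Set.range fun i => (⟨h i, hOC _ (hh i)⟩ : C)) ^ M) →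
      a = 0)
    [FiniteDimensional k (O ⧸ Ideal.span (Set.range fun i => (⟨h i, hh i⟩ : O)))] :
    H.relIndex D ≤ finrank k (O ⧸ Ideal.span (Set.range fun i => (⟨h i, hh i⟩ : O))) := by
  classical
  set J : Ideal O := Ideal.span (Set.range fun i => (⟨h i, hh i⟩ : O)) with hJ
  set I : Ideal C := Ideal.span (Set.range fun i => (⟨h i, hOC _ (hh i)⟩ : C)) with hI
  let Q := D ⧸ H.subgroupOf D
  have : Finite Q := inferInstance
  let _ : Fintype Q := Fintype.ofFinite Q
  have hcard : H.relIndex D = Fintype.card Q := by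
    rw [Subgroup.relIndex, Subgroup.index, Nat.card_eq_fintype_card]
  rw [hcard]
  by_contra hlt
  push Not at hlt
  -- the conjugates
  let τ : Q → (O →* N) := fun q =>
    (((q.out : D) : N ≃ₐ[F] N) : N →* N).comp (O.subtype : O →* N)
  have hτ : ∀ q (g : O), τ q g = ((q.out : D) : N ≃ₐ[F] N) (g : N) := fun q g => rfl
  have hτinj : Function.Injective τ := by
    intro q q' hqq
    have h1 : ((q.out : D) : N ≃ₐ[F] N)⁻¹ * ((q'.out : D) : N ≃ₐ[F] N) ∈ H := by
      refine hsep _ (D.mul_mem (D.inv_mem q.out.2) q'.out.2) fun g hg => ?_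
      have h2 : ((q.out : D) : N ≃ₐ[F] N) g = ((q'.out : D) : N ≃ₐ[F] N) g := by
        have := DFunLike.congr_fun hqq (⟨g, hg⟩ : O)
        exact this
      rw [AlgEquiv.mul_apply, ← h2]
      exact AlgEquiv.symm_apply_apply _ _
    have h3 : (QuotientGroup.mk q.out : Q) = QuotientGroup.mk q'.out := by
      rw [QuotientGroup.eq, Subgroup.mem_subgroupOf]
      exact h1
    rwa [QuotientGroup.out_eq', QuotientGroup.out_eq'] at h3
  have hli : LinearIndependent N (fun q => (τ q : O → N)) :=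
    (linearIndependent_monoidHom O N).comp τ hτinj
  -- the relation
  let b := Module.finBasis k (O ⧸ J)
  choose θ hθ using fun i => Ideal.Quotient.mk_surjective (b i)
  let A : (Q → N) →ₗ[N] (Fin (finrank k (O ⧸ J)) → N) :=
    { toFun := fun l i => ∑ q, l q * τ q (θ i)
      map_add' := fun l l' => by
        funext i
        simp only [Pi.add_apply, add_mul, Finset.sum_add_distrib]
      map_smul' := fun c l => by
        funext i
        simp only [Pi.smul_apply, smul_eq_mul, RingHom.id_apply, Finset.mul_sum, mul_assoc] }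
  have hker : LinearMap.ker A ≠ ⊥ := LinearMap.ker_ne_bot_of_finrank_lt (by
    rw [Module.finrank_fintype_fun_eq_card, Module.finrank_fintype_fun_eq_card, Fintype.card_fin]
    exact hlt)
  obtain ⟨l, hl, hl0⟩ := (Submodule.ne_bot_iff _).1 hker
  obtain ⟨s, hs, hs0, hsl⟩ := exists_common_den C hfrac l
  have hlθ : ∀ i, ∑ q, (s * l q) * τ q (θ i) = 0 := by
    intro i
    have h1 : ∑ q, l q * τ q (θ i) = 0 := congrFun (LinearMap.mem_ker.1 hl) i
    calc ∑ q, (s * l q) * τ q (θ i) = s * ∑ q, l q * τ q (θ i) := by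
          rw [Finset.mul_sum]
          exact Finset.sum_congr rfl fun q _ => mul_assoc _ _ _
      _ = 0 := by rw [h1, mul_zero]
  let Φ : O → N := fun g => ∑ q, (s * l q) * τ q g
  have hΦC : ∀ g, Φ g ∈ C := fun g => Subring.sum_mem _ fun q _ =>
    C.mul_mem (hsl q) (hDC _ q.out.2 _ (hOC _ g.2))
  have hΦadd : ∀ g g', Φ (g + g') = Φ g + Φ g' := by
    intro g g'
    change ∑ q, (s * l q) * τ q (g + g') = ∑ q, (s * l q) * τ q g + ∑ q, (s * l q) * τ q g'
    rw [← Finset.sum_add_distrib]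
    refine Finset.sum_congr rfl fun q _ => ?_
    rw [hτ, hτ, hτ, ← mul_add, ← map_add]
    rfl
  let Φ' : O →+ N := AddMonoidHom.mk' Φ hΦadd
  have hΦ' : ∀ g, Φ g = Φ' g := fun g => rfl
  have hΦsmul : ∀ (c : k) g, Φ (c • g) = c • Φ g := by
    intro c g
    change ∑ q, (s * l q) * τ q (c • g) = c • ∑ q, (s * l q) * τ q g
    rw [Finset.smul_sum]
    refine Finset.sum_congr rfl fun q _ => ?_
    rw [hτ, hτ]
    have h1 : (((c • g : O) : O) : N) = (algebraMap k F c) • (g : N) := by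
      rw [algebraMap_smul]
      rfl
    rw [h1, map_smul, algebraMap_smul, mul_smul_comm]
  have hΦh : ∀ i (g : O), Φ (g * ⟨h i, hh i⟩) = h i * Φ g := by
    intro i g
    change ∑ q, (s * l q) * τ q (g * ⟨h i, hh i⟩) = h i * ∑ q, (s * l q) * τ q g
    rw [Finset.mul_sum]
    refine Finset.sum_congr rfl fun q _ => ?_
    rw [hτ, hτ]
    have h1 : ((g * ⟨h i, hh i⟩ : O) : N) = (g : N) * h i := rfl
    rw [h1, map_mul, hfix _ q.out.2 i]
    ring
  have hΦI : ∀ M : ℕ, ∀ g : O, (⟨Φ g, hΦC g⟩ : C) ∈ I ^ M := by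
    intro M
    induction M with
    | zero => intro g; rw [pow_zero, Ideal.one_eq_top]; exact Submodule.mem_top
    | succ M ih =>
      intro g
      -- the decomposition of `g`
      have h1 : g - ∑ i, (b.repr (Ideal.Quotient.mk J g) i) • θ i ∈ J := by
        rw [← Ideal.Quotient.eq_zero_iff_mem, map_sub, map_sum, sub_eq_zero]
        conv_lhs => rw [← b.sum_repr (Ideal.Quotient.mk J g)]
        refine Finset.sum_congr rfl fun i _ => ?_
        rw [← hθ i]
        rfl
      obtain ⟨a, ha⟩ := Ideal.mem_span_range_iff_exists_fun.1 h1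
      have h2 : g = (∑ i, (b.repr (Ideal.Quotient.mk J g) i) • θ i) +
          ∑ i, a i * (⟨h i, hh i⟩ : O) := by
        rw [ha]; ring
      have h3 : Φ g = ∑ i, h i * Φ (a i) := by
        conv_lhs => rw [h2]
        rw [hΦ', map_add, map_sum, map_sum]
        have h4 : ∑ i, Φ' ((b.repr (Ideal.Quotient.mk J g) i) • θ i) = 0 := by
          refine Finset.sum_eq_zero fun i _ => ?_
          rw [← hΦ', hΦsmul]
          have h5 : Φ (θ i) = 0 := hlθ i
          rw [h5, smul_zero]
        rw [h4, zero_add]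
        exact Finset.sum_congr rfl fun i _ => hΦh i (a i)
      have h6 : (⟨Φ g, hΦC g⟩ : C) =
          ∑ i, (⟨h i, hOC _ (hh i)⟩ : C) * ⟨Φ (a i), hΦC (a i)⟩ := by
        apply Subtype.ext
        rw [AddSubmonoidClass.coe_finsetSum]
        exact h3
      rw [h6, pow_succ']
      exact Ideal.sum_mem _ fun i _ => Ideal.mul_mem_mul
        (Ideal.subset_span ⟨i, rfl⟩) (ih (a i))
  have hΦ0 : ∀ g : O, Φ g = 0 := by
    intro g
    have h1 := hkrull ⟨Φ g, hΦC g⟩ fun M => hΦI M g
    exact congrArg Subtype.val h1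
  -- contradiction
  rw [Fintype.linearIndependent_iff] at hli
  have h1 := hli (fun q => s * l q) (by
    funext g
    rw [Finset.sum_apply]
    exact hΦ0 g)
  refine hl0 (funext fun q => ?_)
  exact (mul_eq_zero.1 (h1 q)).resolve_left hs0

end LocDeg

end Pool.Agent.TG
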