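import Pool.Agent.Lib.TG.Basic
import Pool.Agent.Lib.TG.ZDim

/-!
# TANK G, A8: domination comes from the monomial form

If every ratio of two elements of a spanning set of the model `P₀` is, everywhere on `P`, a
monomial times a unit with exponents of one sign, then `P` dominates `P₀`.
-/

set_option autoImplicit false

namespace Pool.Agent.TG

open Pool.Agent.LU2 (locV IsPar Mono le_locV locV_mono locV_le locV_inv locV_mem locV_locV)

universe u

variable {k K : Type u} [Field k] [Field K] [Algebra k K] {V W : ValuationSubring K}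
  {P P₀ Q : Submodule k K} {f g : K}

/-- Every valuation ring over `k` contains a zero-dimensional one. -/
theorem exists_zdim_le [IsAlgClosed k] (hV : Ov k V) : ∃ W : ValuationSubring K, W ≤ V ∧
    ZDim k W := by
  obtain ⟨W, h1, h2, -⟩ := exists_zdim_centre V (⊥ : Subalgebra k K) Subalgebra.fg_bot
    (fun a ha => by
      obtain ⟨c, rfl⟩ := Algebra.mem_bot.1 ha
      exact hV c) ⊥ (by
        intro h
        have h1 : (1 : (⊥ : Subalgebra k K)) ∈ (⊥ : Ideal (⊥ : Subalgebra k K)) := by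
          rw [h]; trivial
        rw [Ideal.mem_bot] at h1
        exact one_ne_zero h1) (by
      rintro ⟨a, ha⟩ h
      obtain ⟨c, rfl⟩ := Algebra.mem_bot.1 ha
      rw [Ideal.mem_bot]
      by_contra hc
      have hc0 : c ≠ 0 := by
        rintro rfl
        exact hc (Subtype.ext (map_zero _))
      have h2 : (algebraMap k K c)⁻¹ ∈ V := by
        rw [← map_inv₀]
        exact hV c⁻¹
      have h3 : V.valuation (algebraMap k K c)⁻¹ ≤ 1 := (V.valuation_le_one_iff _).2 h2
      have h4 : V.valuation (algebraMap k K c * (algebraMap k K c)⁻¹) < 1 := by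
        rw [map_mul]
        exact mul_lt_one_of_lt_of_le h h3
      rw [mul_inv_cancel₀ ((map_ne_zero _).2 hc0), map_one] at h4
      exact lt_irrefl _ h4)
  exact ⟨W, h1, h2⟩

theorem locV_anti_le (hle : W ≤ V) (S : Subalgebra k K) : locV W S ≤ locV V S := by
  rintro f ⟨a, ha, b, hb, h1, rfl⟩
  exact ⟨a, ha, b, hb, LU2.val_eq_one_of_le hle h1, rfl⟩

theorem RV_le_of_le (hW : Ov k W) (hP : IsModel P) (hle : W ≤ V) : RV W P ≤ RV V P := by
  obtain ⟨f, hf⟩ := exists_isMin hW hP
  rw [RV_eq hf, RV_eq (hf.of_le hle)]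
  exact locV_anti_le hle _

/-- The local ring at the centre of `V` is the localisation of the one at the centre of `W ≤ V`. -/
theorem RV_eq_locV_of_le (hW : Ov k W) (hP : IsModel P) (hle : W ≤ V) :
    RV V P = locV V (RV W P) := by
  refine le_antisymm ?_ (locV_le (RV_le_of_le hW hP hle) fun _ h h1 => RV_inv h h1)
  obtain ⟨f, hf⟩ := exists_isMin hW hP
  rw [RV_eq hf, RV_eq (hf.of_le hle)]
  exact locV_mono (le_locV _)

theorem NV_eq_locV_of_le (hW : Ov k W) (hP : IsModel P) (hle : W ≤ V) :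
    NV V P = locV V (NV W P) := by
  have hin : locV W (ncl (RV W P)) ≤ locV V (ncl (RV W P)) := locV_anti_le hle _
  rw [NV, NV, RV_eq_locV_of_le hW hP hle, locV_ncl_locV]
  exact le_antisymm (locV_mono (le_locV _)) (locV_le hin fun _ h h1 => locV_inv h h1)

/-- Domination may be checked at the zero-dimensional valuation rings. -/
theorem Dom.of_zdim [IsAlgClosed k] (hP : IsModel P) (hQ : IsModel Q)
    (h : ∀ V : ValuationSubring K, ZDim k V → RV V P ≤ RV V Q) : Dom P Q := by
  intro V hV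
  obtain ⟨W, hle, hW⟩ := exists_zdim_le hV
  rw [RV_eq_locV_of_le hW.ov hP hle]
  exact locV_le ((h W hW).trans (RV_le_of_le hW.ov hQ hle)) fun _ ha h1 => RV_inv ha h1

/-- A monomial of nonnegative value is in the local ring. -/
theorem mem_of_mono {R : Subalgebra k K} {n : ℕ} {t : Fin n → K} (ht : ∀ i, t i ∈ R) {z : K}
    (hz : Mono V R t z) (h1 : V.valuation z ≤ 1) : z ∈ R := by
  obtain ⟨e, w, hw, -, rfl, h2, -⟩ := hz
  have he := h2 h1
  refine R.mul_mem (R.prod_mem fun i _ => ?_) hw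
  obtain ⟨m, hm⟩ := Int.eq_ofNat_of_zero_le (he i)
  rw [hm, zpow_natCast]
  exact R.pow_mem (ht i) m

theorem dom_of_logReg [IsAlgClosed k] {n : ℕ} (S : Finset K) (hS : ∀ s ∈ S, s ≠ 0)
    (hS0 : S.Nonempty) (hP : IsModel P) {Z : Set K} (hZ : ∀ s ∈ S, ∀ s' ∈ S, s / s' ∈ Z)
    (h : LogReg n P Z) : Dom (Submodule.span k (S : Set K)) P := by
  have hex : ∃ x ∈ S, x ≠ 0 := hS0.imp fun x hx => ⟨hx, hS x hx⟩
  have hP₀ : IsModel (Submodule.span k (S : Set K)) := by
    refine ⟨⟨S, rfl⟩, fun h0 => ?_⟩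
    obtain ⟨x, hx, hx0⟩ := hex
    exact hx0 ((Submodule.span_eq_bot.1 h0) x hx)
  refine Dom.of_zdim hP₀ hP fun V hV => ?_
  obtain ⟨f, hfS, hf⟩ := exists_isMin_mem hV.ov S hex
  obtain ⟨t, ht, hm⟩ := h V hV
  rw [RV_le_iff (fun _ ha h1 => RV_inv ha h1) hf]
  intro g hg
  induction hg using Submodule.span_induction with
  | mem x hx =>
    exact mem_of_mono ht.par.mem (hm _ (hZ x hx f hfS))
      ((V.valuation_le_one_iff _).2 (hf.div x (Submodule.subset_span hx)))
  | zero => rw [zero_div]; exact Subalgebra.zero_mem _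
  | add x y _ _ hx hy => rw [add_div]; exact Subalgebra.add_mem _ hx hy
  | smul c x _ hx => rw [smul_div_assoc]; exact Subalgebra.smul_mem _ hx c

/-- The statement `[n]` without domination. -/
def WLz (k : Type u) [Field k] (n : ℕ) : Prop :=
  ∀ (K : Type u) [Field K] [Algebra k K], (⊤ : IntermediateField k K).FG →
    Algebra.trdeg k K = n → ∀ Z : Finset K, (∀ z ∈ Z, z ≠ 0) →
      ∃ P : Submodule k K, IsModel P ∧ LogReg n P (Z : Set K)

theorem WL_of_WLz [IsAlgClosed k] {n : ℕ} (h : WLz k n) : WL k n := by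
  classical
  intro K _ _ hfg hn P₀ hP₀ Z hZ
  obtain ⟨S, hS⟩ := hP₀.fg
  set S' := S.filter fun x => x ≠ 0 with hS'
  have hspan : Submodule.span k (S' : Set K) = P₀ := by
    rw [← hS]
    refine le_antisymm (Submodule.span_mono ?_) (Submodule.span_le.2 fun x hx => ?_)
    · intro x hx
      rw [Finset.mem_coe, hS', Finset.mem_filter] at hx
      exact hx.1
    · by_cases hx0 : x = 0
      · rw [hx0]; exact Submodule.zero_mem _
      · exact Submodule.subset_span (Finset.mem_coe.2 (Finset.mem_filter.2 ⟨hx, hx0⟩))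
  have hS0 : S'.Nonempty := by
    rw [Finset.nonempty_iff_ne_empty]
    intro h0
    rw [h0, Finset.coe_empty, Submodule.span_empty] at hspan
    exact hP₀.ne hspan.symm
  have hne : ∀ s ∈ S', s ≠ 0 := fun s hs => (Finset.mem_filter.1 hs).2
  obtain ⟨P, hP, hlog⟩ := h K hfg hn (Z ∪ (S' ×ˢ S').image fun a => a.1 / a.2) (by
    intro z hz
    rcases Finset.mem_union.1 hz with hz | hz
    · exact hZ z hz
    · obtain ⟨⟨a, b⟩, hab, rfl⟩ := Finset.mem_image.1 hz
      obtain ⟨ha, hb⟩ := Finset.mem_product.1 hab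
      exact div_ne_zero (hne a ha) (hne b hb))
  refine ⟨P, hP, ?_, fun V hV => ?_⟩
  · rw [← hspan]
    refine dom_of_logReg S' hne hS0 hP (fun s hs s' hs' => ?_) hlog
    exact Finset.mem_coe.2 (Finset.mem_union_right _
      (Finset.mem_image.2 ⟨(s, s'), Finset.mem_product.2 ⟨hs, hs'⟩, rfl⟩))
  · obtain ⟨t, ht, hm⟩ := hlog V hV
    exact ⟨t, ht, fun z hz => hm z (Finset.mem_coe.2 (Finset.mem_union_left _ hz))⟩

end Pool.Agent.TG
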